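import Pool.Agent.Helper14.GP.Ty
import Pool.Agent.Helper14.TF.Num

/-!
Project BL (MP_b8862a_ag): every block of a Hodge structure of weight two whose rank is at least nine and at least
`(p_g + 1) ^ 2` satisfies the condition `DomB`.
-/

set_option linter.unusedSectionVars false

open Matrix Module GH

namespace MH

variable {n : Type*} [Fintype n] [DecidableEq n]
variable {m w : ℤ} {Q : Matrix n n ℚ} {S : Finset ℤ} {P : ℤ → Matrix n n ℂ}

namespace IsHW

variable (H : IsHW w Q S P)
include H

open scoped ComplexOrder in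
/-- the complexified endomorphism algebra is semiprime -/
theorem semiprime55 {y : Matrix n n ℂ} (hy : y ∈ EC P) (h0 : y ≠ 0) : ∃ z ∈ EC P, y * z * y ≠ 0 := by
  obtain ⟨B, Bi, _, h1, h2, _, _, hM⟩ := H.exists_basis
  have hc := H.LB_com h1 h2 hM hy
  set y' := cj B Bi y with hy'
  have hy0 : y' ≠ 0 := by
    intro h3
    apply h0
    rw [← cj_cj h2 y, ← hy', h3]
    simp [cj]
  have hc' : ∀ x ∈ LB Q S P B Bi, y'ᴴ * x = x * y'ᴴ := by
    intro x hx
    have h3 := congrArg Matrix.conjTranspose (hc _ (H.LB_star h1 h2 hM hx))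
    rw [Matrix.conjTranspose_mul, Matrix.conjTranspose_mul, Matrix.conjTranspose_conjTranspose] at h3
    exact h3
  refine ⟨cj Bi B y'ᴴ, ?_, ?_⟩
  · refine H.EC_of_LH fun Y hY => ?_
    have hY' : cj B Bi Y ∈ LB Q S P B Bi := by rw [mem_LB, cj_cj h2]; exact hY
    have a6 := congrArg (cj Bi B) (hc' _ hY')
    rw [← cj_mul h1, ← cj_mul h1, cj_cj h2] at a6
    exact a6
  · intro h3
    have h4 := congrArg (cj B Bi) h3
    rw [← cj_mul h2, ← cj_mul h2, cj_cj h1, ← hy'] at h4
    have h5 : cj B Bi 0 = 0 := by simp [cj]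
    rw [h5, Matrix.mul_assoc, Matrix.mul_conjTranspose_mul_self_eq_zero,
      Matrix.self_mul_conjTranspose_eq_zero] at h4
    exact hy0 h4

/-- a block without symmetric invariant form is orthogonal to its adjoint -/
theorem adj_orth55 (hsy : (toC Q)ᵀ = toC Q) {Qi : Matrix n n ℂ} (h3 : toC Q * Qi = 1) (h4 : Qi * toC Q = 1)
    {f : Matrix n n ℂ} (hf : IsBlk P f) (hO : ¬ OrthB Q P f) :
    (Qi * fᵀ * toC Q) * f = 0 ∧ f * (Qi * fᵀ * toC Q) = 0 := by
  have hQi : Qiᵀ = Qi := by
    have a1 : toC Q * Qiᵀ = 1 := by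
      have := congrArg Matrix.transpose h4
      rwa [Matrix.transpose_mul, hsy, Matrix.transpose_one] at this
    calc Qiᵀ = (Qi * toC Q) * Qiᵀ := by rw [h4, one_mul]
      _ = Qi := by rw [mul_assoc, a1, mul_one]
  -- the adjoint
  set ad : Matrix n n ℂ → Matrix n n ℂ := fun x => Qi * xᵀ * toC Q with had
  have ad_mul : ∀ x y, ad (x * y) = ad y * ad x := by
    intro x y
    calc Qi * (x * y)ᵀ * toC Q = Qi * (yᵀ * 1 * xᵀ) * toC Q := by rw [Matrix.transpose_mul, mul_one]
      _ = (Qi * yᵀ * toC Q) * (Qi * xᵀ * toC Q) := by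
        rw [← h3]
        simp only [mul_assoc]
  have ad_ad : ∀ x, ad (ad x) = x := by
    intro x
    calc Qi * (Qi * xᵀ * toC Q)ᵀ * toC Q = (Qi * toC Q) * x * (Qi * toC Q) := by
          rw [Matrix.transpose_mul, Matrix.transpose_mul, Matrix.transpose_transpose, hsy, hQi]
          simp only [mul_assoc]
      _ = x := by rw [h4, one_mul, mul_one]
  have ad_add : ∀ x y, ad (x + y) = ad x + ad y := by
    intro x y
    simp only [had, Matrix.transpose_add, mul_add, add_mul]
  have ad_smul : ∀ (c : ℂ) x, ad (c • x) = c • ad x := by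
    intro c x
    simp only [had, Matrix.transpose_smul, mul_smul_comm, smul_mul_assoc]
  have ad_EC : ∀ x ∈ EC P, ad x ∈ EC P := fun x hx => H.EC_adj h3 h4 hx
  have hQad : ∀ x, xᵀ * toC Q = toC Q * ad x := by
    intro x
    calc xᵀ * toC Q = (toC Q * Qi) * xᵀ * toC Q := by rw [h3, one_mul]
      _ = toC Q * (Qi * xᵀ * toC Q) := by simp only [mul_assoc]
  -- symmetric elements
  have key : ∀ x ∈ EC P, ad x = x → ad f * x * f = 0 := by
    intro x hx hxs
    by_contra hne
    apply hO
    refine ⟨x, hx, by rw [hQad, hxs], fun h0 => hne ?_⟩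
    calc ad f * x * f = Qi * (fᵀ * (toC Q * x) * f) := by
          simp only [had, mul_assoc]
      _ = 0 := by rw [h0, mul_zero]
  have h1E : (1 : Matrix n n ℂ) ∈ EC P := by
    have e1 : toC (1 : Matrix n n ℚ) = 1 := by
      ext i j
      by_cases hij : i = j
      · subst hij
        simp [toC]
      · simp [toC, hij]
    rw [← e1]
    exact mem_EC fun p => by rw [e1, one_mul, mul_one]
  have a1 : ad f * f = 0 := by
    have := key 1 h1E (by simp only [had, Matrix.transpose_one, mul_one, h4])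
    rwa [mul_one] at this
  refine ⟨a1, ?_⟩
  by_contra hne
  set y := f * ad f with hy
  have hyE : y ∈ EC P := EC_mul hf.mem (ad_EC f hf.mem)
  have hys : ad y = y := by rw [hy, ad_mul, ad_ad]
  obtain ⟨z, hz, hyz⟩ := H.semiprime55 hyE hne
  have b1 : ad f * (z + ad z) * f = 0 :=
    key _ ((EC P).add_mem hz (ad_EC z hz)) (by rw [ad_add, ad_ad, add_comm])
  have b2 : ad f * ad z * f = -(ad f * z * f) := by
    rw [mul_add, add_mul] at b1
    exact eq_neg_of_add_eq_zero_right b1
  have b3 : ad (ad f * z * f) = -(ad f * z * f) := by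
    rw [ad_mul, ad_mul, ad_ad, ← mul_assoc, b2]
  obtain ⟨c, hc⟩ := hf.min (ad f * (ad f * z)) (EC_mul (ad_EC f hf.mem) (EC_mul (ad_EC f hf.mem) hz))
  have hff : ad f * ad f = ad f := by rw [← ad_mul, hf.idem]
  have b4 : y * (ad f * z * f) = c • f := by
    rw [← hc, hy]
    calc f * ad f * (ad f * z * f) = f * (ad f * (ad f * z)) * f := by simp only [mul_assoc]
      _ = _ := rfl
  have b5 : y * (ad f * z * f) * y = c • y := by
    rw [b4, smul_mul_assoc, hy, ← mul_assoc, hf.idem]
  have b6 : ad (y * (ad f * z * f) * y) = -(y * (ad f * z * f) * y) := by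
    rw [ad_mul (y * (ad f * z * f)) y, ad_mul y (ad f * z * f), b3, hys, neg_mul, mul_neg, ← mul_assoc y]
  have b7 : c • y = -(c • y) := by
    calc c • y = c • ad y := by rw [hys]
      _ = ad (c • y) := (ad_smul c y).symm
      _ = -(c • y) := by rw [← b5, b6]
  have b8 : c • y = 0 := by
    have h5 : (2 : ℂ) • (c • y) = 0 := by
      rw [two_smul]
      nth_rewrite 2 [b7]
      rw [add_neg_cancel]
    exact (smul_eq_zero.1 h5).resolve_left two_ne_zero
  apply hyz
  have hfy : f * y = y := by rw [hy, ← mul_assoc, hf.idem]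
  have hyf : y * ad f = y := by rw [hy, mul_assoc, hff]
  calc y * z * y = y * ad f * z * (f * y) := by rw [hyf, hfy]
    _ = y * (ad f * z * f) * y := by simp only [mul_assoc]
    _ = 0 := by rw [b5, b8]

end IsHW

/-- **Weight two: blocks of rank at least nine and at least `(p_g + 1) ^ 2`.** -/
theorem IsHW.domB_two {Q : Matrix n n ℚ} {S : Finset ℤ} {P : ℤ → Matrix n n ℂ} (H : IsHW 2 Q S P)
    (hP : ∀ p, p ≠ 0 → p ≠ 1 → p ≠ 2 → P p = 0) {e : Matrix n n ℂ} (he : IsBlk P e) (h9 : 9 ≤ e.rank)
    (hg : ((P 2).rank + 1) ^ 2 ≤ e.rank) (σ : ℂ ≃+* ℂ) : DomB 2 Q S P (e.map σ) := by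
  classical
  obtain ⟨B, Bi, Qi, h1, h2, h3, h4, hM⟩ := H.exists_basis
  have hf := he.aut σ
  set f := e.map σ with hfdef
  have hrk : f.rank = e.rank := rank_aut σ he.idem
  rw [← hrk] at h9 hg
  have hPP : ∀ p, P p * P p = P p := fun p => by rw [H.mul, if_pos rfl]
  have hfP : ∀ p, (f * P p) * (f * P p) = f * P p := by
    intro p
    have hPe := EC_P hf.mem p
    calc (f * P p) * (f * P p) = f * (P p * f) * P p := by simp only [mul_assoc]
      _ = (f * f) * (P p * P p) := by rw [← hPe]; simp only [mul_assoc]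
      _ = f * P p := by rw [hf.idem, hPP]
  by_cases hO : OrthB Q P f
  · have hsB : sB 1 S P f ≤ (P 2).rank := by
      unfold sB
      have h5 : ∀ p ∈ S.filter (fun p => 1 < p), p ≠ 2 → (f * P p).rank = 0 := by
        intro p hp hp2
        have h6 := (Finset.mem_filter.1 hp).2
        rw [hP p (by omega) (by omega) hp2, mul_zero, Matrix.rank_zero]
      by_cases h6 : (2 : ℤ) ∈ S.filter (fun p => 1 < p)
      · rw [Finset.sum_eq_single 2 h5 (fun h => absurd h6 h)]
        exact Matrix.rank_mul_le_right _ _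
      · rw [Finset.sum_eq_zero]
        · exact Nat.zero_le _
        · intro p hp
          exact h5 p hp fun h => h6 (h ▸ hp)
    have hn := (H.orth_nums h1 h2 hM (m := 1) (by norm_num) hf hO).1
    by_cases hs : sB 1 S P f ≤ 1
    · left
      refine ⟨1, Or.inr ?_⟩
      have h5 : f.rank - (f * P 1).rank + 1 ≤ 3 := by omega
      calc (f.rank - (f * P 1).rank + 1) ^ 2 ≤ 3 ^ 2 := Nat.pow_le_pow_left h5 2
        _ ≤ f.rank := by omega
    · right
      refine ⟨1, by norm_num, hO, Or.inr ⟨by omega, ?_⟩⟩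
      have h5 : (sB 1 S P f + 1) ^ 2 ≤ f.rank := (Nat.pow_le_pow_left (by omega) 2).trans hg
      nlinarith
  · left
    refine ⟨1, Or.inr ?_⟩
    refine (Nat.pow_le_pow_left ?_ 2).trans hg
    have hsy := H.Q_symm_even (m := 1) (by norm_num)
    obtain ⟨c1, c2⟩ := H.adj_orth55 hsy h3 h4 hf hO
    set f' := Qi * fᵀ * toC Q with hf'
    have hf'E : f' ∈ EC P := H.EC_adj h3 h4 hf.mem
    have hf'f' : f' * f' = f' := by
      calc f' * f' = Qi * fᵀ * (toC Q * Qi) * fᵀ * toC Q := by rw [hf']; simp only [mul_assoc]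
        _ = Qi * (f * f)ᵀ * toC Q := by rw [h3, mul_one, Matrix.transpose_mul]; simp only [mul_assoc]
        _ = f' := by rw [hf.idem]
    have hf'P : (f' * P 2) * (f' * P 2) = f' * P 2 := by
      have hPe := EC_P hf'E 2
      calc (f' * P 2) * (f' * P 2) = f' * (P 2 * f') * P 2 := by simp only [mul_assoc]
        _ = (f' * f') * (P 2 * P 2) := by rw [← hPe]; simp only [mul_assoc]
        _ = f' * P 2 := by rw [hf'f', hPP]
    have htr : (f' * P 2).trace = (f * P 0).trace := by
      have d1 : toC Q * P 2 = (P 0)ᵀ * toC Q := by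
        have := H.transpose_mul_Q 0
        rw [sub_zero] at this
        exact this.symm
      calc (f' * P 2).trace = (Qi * (fᵀ * (P 0)ᵀ) * toC Q).trace := by
            rw [hf', mul_assoc _ (toC Q), d1]
            simp only [mul_assoc]
        _ = (toC Q * (Qi * (fᵀ * (P 0)ᵀ))).trace := Matrix.trace_mul_comm _ _
        _ = ((P 0 * f)ᵀ).trace := by rw [← mul_assoc, h3, one_mul, Matrix.transpose_mul]
        _ = (f * P 0).trace := by rw [Matrix.trace_transpose, Matrix.trace_mul_comm]
    have hr0 : (f' * P 2).rank = (f * P 0).rank := by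
      rw [trace_eq_rank hf'P, trace_eq_rank (hfP 0)] at htr
      exact_mod_cast htr
    -- the sum of the two idempotents
    have hg2 : (f * P 2 + f' * P 2) * (f * P 2 + f' * P 2) = f * P 2 + f' * P 2 := by
      have d1 : (f * P 2) * (f' * P 2) = 0 := by
        calc (f * P 2) * (f' * P 2) = f * (P 2 * f') * P 2 := by simp only [mul_assoc]
          _ = (f * f') * P 2 * P 2 := by rw [← EC_P hf'E 2]; simp only [mul_assoc]
          _ = 0 := by rw [c2, zero_mul, zero_mul]
      have d2 : (f' * P 2) * (f * P 2) = 0 := by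
        calc (f' * P 2) * (f * P 2) = f' * (P 2 * f) * P 2 := by simp only [mul_assoc]
          _ = (f' * f) * P 2 * P 2 := by rw [← EC_P hf.mem 2]; simp only [mul_assoc]
          _ = 0 := by rw [c1, zero_mul, zero_mul]
      rw [add_mul, mul_add, mul_add, d1, d2, hfP 2, hf'P, add_zero, zero_add]
    have hab : (f * P 2).rank + (f * P 0).rank ≤ (P 2).rank := by
      have d1 : (f * P 2 + f' * P 2).trace = (f * P 2).trace + (f' * P 2).trace := Matrix.trace_add _ _
      rw [trace_eq_rank hg2, trace_eq_rank (hfP 2), trace_eq_rank hf'P, hr0] at d1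
      have d2 : (f * P 2 + f' * P 2).rank = (f * P 2).rank + (f * P 0).rank := by exact_mod_cast d1
      rw [← d2, ← add_mul]
      exact Matrix.rank_mul_le_right _ _
    -- the sum of the numbers
    have hsum : f.rank = (f * P 0).rank + (f * P 1).rank + (f * P 2).rank := by
      have d0 : (1 : Matrix n n ℂ) = P 0 + P 1 + P 2 := by
        refine H.ext_right fun q _ => ?_
        rw [one_mul, add_mul, add_mul, H.mul, H.mul, H.mul]
        by_cases q0 : 0 = q
        · subst q0
          simp
        by_cases q1 : 1 = q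
        · subst q1
          simp
        by_cases q2 : 2 = q
        · subst q2
          simp
        rw [if_neg q0, if_neg q1, if_neg q2, hP q (Ne.symm q0) (Ne.symm q1) (Ne.symm q2)]
        simp
      have d1 : f.trace = (f * P 0).trace + (f * P 1).trace + (f * P 2).trace := by
        rw [← Matrix.trace_add, ← Matrix.trace_add, ← mul_add, ← mul_add, ← d0, mul_one]
      rw [trace_eq_rank hf.idem, trace_eq_rank (hfP 0), trace_eq_rank (hfP 1), trace_eq_rank (hfP 2)] at d1
      exact_mod_cast d1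
    omega

end MH
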