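import Pool.Agent.Helper55.BL2.Rk5
import Pool.Agent.Helper57.CF.Mat

/-!
Project BL (MP_b8862a_ag): a simple irreducible Lie algebra of matrices of trace zero and size `r` at least five that
contains a diagonalisable matrix with an eigenvalue of multiplicity at least `r - 2` and that preserves no bilinear
form is `sl`.
-/

set_option linter.unusedSectionVars false
set_option linter.unusedSimpArgs false

open Matrix Module GH

namespace MH

variable {n : Type*} [Fintype n] [DecidableEq n]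

theorem schur55 [Nonempty n] {L : Submodule ℂ (Matrix n n ℂ)}
    (hirr : ∀ W : Submodule ℂ (n → ℂ), (∀ X ∈ L, ∀ w ∈ W, X *ᵥ w ∈ W) → W = ⊥ ∨ W = ⊤)
    {T : Matrix n n ℂ} (hT : ∀ X ∈ L, T * X = X * T) : ∃ c : ℂ, T = c • (1 : Matrix n n ℂ) := by
  obtain ⟨c, hc⟩ := Module.End.exists_eigenvalue (Matrix.toLin' T)
  refine ⟨c, ?_⟩
  rcases hirr (Module.End.eigenspace (Matrix.toLin' T) c) (by
    intro X hX w hw
    rw [Module.End.mem_eigenspace_iff, Matrix.toLin'_apply] at hw ⊢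
    rw [Matrix.mulVec_mulVec, hT X hX, ← Matrix.mulVec_mulVec, hw, Matrix.mulVec_smul]) with h | h
  · exact absurd h hc
  · apply Matrix.toLin'.injective
    apply LinearMap.ext
    intro u
    have hu : u ∈ Module.End.eigenspace (Matrix.toLin' T) c := by
      rw [h]
      exact Submodule.mem_top
    rw [Module.End.mem_eigenspace_iff, Matrix.toLin'_apply] at hu
    rw [Matrix.toLin'_apply, Matrix.toLin'_apply, hu, Matrix.smul_mulVec, Matrix.one_mulVec]

/-- the spectral decomposition of a Hermitian matrix is Hermitian -/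
theorem spec55 {h : Matrix n n ℂ} {E : ℝ → Matrix n n ℂ} {Λ : Finset ℝ} (hE : SD h E Λ) (hh : hᴴ = h) :
    Spec h E Λ := by
  have hF : SD h (fun μ => (E μ)ᴴ) Λ := by
    refine ⟨fun μ ν => ?_, ?_, ?_⟩
    · rw [← Matrix.conjTranspose_mul, hE.mul]
      by_cases hμ : μ = ν
      · rw [if_pos hμ, if_pos hμ.symm, hμ]
      · rw [if_neg hμ, if_neg (Ne.symm hμ), Matrix.conjTranspose_zero]
    · rw [← Matrix.conjTranspose_sum, hE.sum, Matrix.conjTranspose_one]
    · conv_lhs => rw [← hh, hE.eq]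
      rw [Matrix.conjTranspose_sum]
      refine Finset.sum_congr rfl fun μ _ => ?_
      rw [Matrix.conjTranspose_smul]
      congr 1
      exact Complex.conj_ofReal μ
  have hz : ∀ μ ν : ℝ, μ ≠ ν → E μ * (E ν)ᴴ = 0 := by
    intro μ ν hμ
    have e1 : E μ * (h * (E ν)ᴴ) = (ν : ℂ) • (E μ * (E ν)ᴴ) := by
      rw [hF.l_mul ν, mul_smul_comm]
    rw [← mul_assoc, hE.mul_l, smul_mul_assoc] at e1
    have e2 : ((μ : ℂ) - ν) • (E μ * (E ν)ᴴ) = 0 := by rw [sub_smul, e1, sub_self]
    rcases smul_eq_zero.1 e2 with e3 | e3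
    · exact absurd (by exact_mod_cast sub_eq_zero.1 e3) hμ
    · exact e3
  refine ⟨fun μ => ?_, hE.mul, fun μ hμ => hE.supp hμ, hE.sum, hE.eq⟩
  by_cases hμ : μ ∈ Λ
  · have e1 : E μ = E μ * (E μ)ᴴ := by
      conv_lhs => rw [← mul_one (E μ), ← hF.sum, Finset.mul_sum]
      rw [Finset.sum_eq_single_of_mem μ hμ]
      intro ν _ hν
      exact hz μ ν (Ne.symm hν)
    have e2 : (E μ)ᴴ = E μ * (E μ)ᴴ := by
      conv_lhs => rw [← one_mul (E μ)ᴴ, ← hE.sum, Finset.sum_mul]
      rw [Finset.sum_eq_single_of_mem μ hμ]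
      intro ν _ hν
      exact hz ν μ hν
    rw [e2]
    exact e1.symm
  · rw [hE.supp hμ, Matrix.conjTranspose_zero]

theorem sd_cj55 {h : Matrix n n ℂ} {E : ℝ → Matrix n n ℂ} {Λ : Finset ℝ} (hE : SD h E Λ)
    {B Bi : Matrix n n ℂ} (h1 : B * Bi = 1) (h2 : Bi * B = 1) :
    SD (cj B Bi h) (fun μ => cj B Bi (E μ)) Λ := by
  refine ⟨fun μ ν => ?_, ?_, ?_⟩
  · rw [cj_mul h2, hE.mul]
    by_cases hμ : μ = ν
    · rw [if_pos hμ, if_pos hμ]
    · rw [if_neg hμ, if_neg hμ, cj_zero]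
  · rw [← cj_sum, hE.sum, cj_one h1]
  · conv_lhs => rw [hE.eq, cj_sum]
    exact Finset.sum_congr rfl fun μ _ => cj_smul _ _ _ _

/-- the sum of some of the projections is one, or there is another one -/
theorem exists_next {h : Matrix n n ℂ} {E : ℝ → Matrix n n ℂ} {Λ : Finset ℝ} (hS : Spec h E Λ) (T : Finset ℝ)
    (hT : ∑ ρ ∈ T, E ρ ≠ 1) : ∃ ν, ν ∉ T ∧ E ν ≠ 0 := by
  by_contra hc
  push Not at hc
  apply hT
  symm
  apply hS.ext
  intro ρ ρ'
  by_cases h1 : ρ ∈ T
  · have h2 : E ρ * ∑ ρ ∈ T, E ρ = E ρ := by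
      rw [Finset.mul_sum, Finset.sum_eq_single ρ]
      · rw [hS.mul, if_pos rfl]
      · intro τ _ hτ
        rw [hS.mul, if_neg (Ne.symm hτ)]
      · intro h3
        exact absurd h1 h3
    rw [h2, mul_one]
  · rw [hc ρ h1]
    simp

/-- the theorem for self-adjoint Lie algebras -/
theorem SAl.two {L : Submodule ℂ (Matrix n n ℂ)} (A : SAl L) (hn : 5 ≤ Fintype.card n) {h : Matrix n n ℂ}
    {E : ℝ → Matrix n n ℂ} {Λ : Finset ℝ} (hS : Spec h E Λ) (hh : h ∈ L) (h0 : h ≠ 0) {μ : ℝ}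
    (hμ : Fintype.card n ≤ (E μ).rank + 2) : SlF L := by
  classical
  have hmul := hS.mul
  have hid : ∀ ρ, E ρ * E ρ = E ρ := fun ρ => by rw [hmul, if_pos rfl]
  have htr : ∀ ρ, (E ρ).trace = ((E ρ).rank : ℂ) := fun ρ => trace_eq_rank (hid ρ)
  have hle : (E μ).rank ≤ Fintype.card n := Matrix.rank_le_card_width _
  have hE1 : E μ ≠ 1 := by
    intro h1
    apply h0
    refine A.scal hh (c := (μ : ℂ)) ?_
    have h2 := hS.h_mul μ
    rwa [h1, mul_one] at h2
  -- the complement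
  have hP : (1 - E μ) * (1 - E μ) = 1 - E μ := by
    rw [mul_sub, mul_one, sub_mul, one_mul, hid, sub_self, sub_zero]
  have hPs : (1 - E μ)ᴴ = 1 - E μ := by rw [conjTranspose_sub, conjTranspose_one, hS.star]
  have hPr : (E μ).rank + (1 - E μ).rank = Fintype.card n := by
    have h1 := trace_eq_rank hP
    rw [Matrix.trace_sub, Matrix.trace_one, htr] at h1
    have h2 : (((E μ).rank + (1 - E μ).rank : ℕ) : ℂ) = ((Fintype.card n : ℕ) : ℂ) := by
      push_cast
      rw [← h1]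
      ring
    exact_mod_cast h2
  have hP0 : (1 - E μ).rank ≠ 0 := by
    intro h1
    apply hE1
    exact (sub_eq_zero.1 (rank_eq_zero98 h1)).symm
  by_cases hP1 : (1 - E μ).rank = 1
  · -- a simple eigenvalue
    left
    intro X hX
    obtain ⟨w, hw, hPw⟩ := exists_vec98 hP hPs hP1
    have hw' : ip w w = 1 := hw
    have hPw' : 1 - E μ = ro w w := hPw
    have hcomm : h * ro w w = ro w w * h := by
      rw [← hPw', mul_sub, sub_mul, mul_one, one_mul, hS.h_mul, hS.mul_h]
    have h1 : h * ro w w = ip w (h *ᵥ w) • ro w w := by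
      have h2 : ro w w * ro w w = ro w w := by rw [ro_mul, hw', one_smul]
      calc h * ro w w = (h * ro w w) * ro w w := by rw [mul_assoc, h2]
        _ = ro w w * (h * ro w w) := by rw [← mul_assoc (ro w w) h (ro w w), ← hcomm]
        _ = _ := by rw [mul_ro, ro_mul]
    have h2 : h = (μ : ℂ) • (1 : Matrix n n ℂ) + (ip w (h *ᵥ w) - μ) • ro w w := by
      calc h = h * E μ + h * (1 - E μ) := by rw [mul_sub, mul_one]; abel
        _ = (μ : ℂ) • E μ + ip w (h *ᵥ w) • ro w w := by rw [hS.h_mul, hPw', h1]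
        _ = (μ : ℂ) • (E μ + (1 - E μ)) + (ip w (h *ᵥ w) - μ) • ro w w := by rw [hPw']; module
        _ = _ := by
          congr 2
          abel
    refine sl_of_rank_one A.br A.st A.irr hw (c := (μ : ℂ)) (μ := ip w (h *ᵥ w) - μ) ?_ ?_ hX
    · intro h3
      apply h0
      rw [h3, zero_smul, add_zero] at h2
      exact A.scal hh h2
    · have h3 := hh
      rw [h2] at h3
      exact h3
  have hP2 : (1 - E μ).rank = 2 := by omega
  -- another eigenvalue
  obtain ⟨ν, hν1, hν2⟩ := exists_next hS {μ} (by rw [Finset.sum_singleton]; exact hE1)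
  rw [Finset.mem_singleton] at hν1
  have hR : (E ν).rank ≠ 0 := fun h1 => hν2 (rank_eq_zero98 h1)
  have hnm : E ν * E μ = 0 := by rw [hmul, if_neg hν1]
  have hmn : E μ * E ν = 0 := by rw [hmul, if_neg (Ne.symm hν1)]
  have hP' : (1 - E μ - E ν) * (1 - E μ - E ν) = 1 - E μ - E ν := by
    calc (1 - E μ - E ν) * (1 - E μ - E ν) = (1 - E μ) * (1 - E μ) - E ν + E μ * E ν - E ν + E ν * E μ +
          E ν * E ν := by noncomm_ring
      _ = _ := by rw [hP, hmn, hnm, hid]; abel
  have hPr' : (1 - E μ - E ν).rank + (E ν).rank = 2 := by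
    have h1 := trace_eq_rank hP'
    rw [Matrix.trace_sub, trace_eq_rank hP, htr, hP2] at h1
    have h2 : (((1 - E μ - E ν).rank + (E ν).rank : ℕ) : ℂ) = ((2 : ℕ) : ℂ) := by
      push_cast
      rw [← h1]
      push_cast
      ring
    exact_mod_cast h2
  by_cases hν3 : (E ν).rank = 2
  · refine A.r3 hn hS hh h0 (Ne.symm hν1) ?_ hν3
    have h1 : (1 - E μ - E ν).rank = 0 := by omega
    have h2 := rank_eq_zero98 h1
    rw [sub_sub, sub_eq_zero] at h2
    exact h2.symm
  have hν4 : (E ν).rank = 1 := by omega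
  obtain ⟨ν', hν'1, hν'2⟩ := exists_next hS {μ, ν} (by
    rw [Finset.sum_pair (Ne.symm hν1)]
    intro h1
    rw [sub_sub, ← h1, sub_self, Matrix.rank_zero] at hPr'
    omega)
  simp only [Finset.mem_insert, Finset.mem_singleton, not_or] at hν'1
  have hR' : (E ν').rank ≠ 0 := fun h1 => hν'2 (rank_eq_zero98 h1)
  have m1 : E ν' * E μ = 0 := by rw [hmul, if_neg hν'1.1]
  have m2 : E μ * E ν' = 0 := by rw [hmul, if_neg (Ne.symm hν'1.1)]
  have m3 : E ν' * E ν = 0 := by rw [hmul, if_neg hν'1.2]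
  have m4 : E ν * E ν' = 0 := by rw [hmul, if_neg (Ne.symm hν'1.2)]
  have hP'' : (1 - E μ - E ν - E ν') * (1 - E μ - E ν - E ν') = 1 - E μ - E ν - E ν' := by
    calc (1 - E μ - E ν - E ν') * (1 - E μ - E ν - E ν') = (1 - E μ - E ν) * (1 - E μ - E ν) -
          (E ν' - E μ * E ν' - E ν * E ν') - (E ν' - E ν' * E μ - E ν' * E ν) + E ν' * E ν' := by noncomm_ring
      _ = _ := by rw [hP', m1, m2, m3, m4, hid]; abel
  have hPr'' : (1 - E μ - E ν - E ν').rank + (E ν').rank = 1 := by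
    have h1 := trace_eq_rank hP''
    rw [Matrix.trace_sub, trace_eq_rank hP', htr] at h1
    have h2 : (((1 - E μ - E ν - E ν').rank + (E ν').rank : ℕ) : ℂ) = (((1 - E μ - E ν).rank : ℕ) : ℂ) := by
      push_cast
      rw [← h1]
      ring
    have h3 : (1 - E μ - E ν - E ν').rank + (E ν').rank = (1 - E μ - E ν).rank := by exact_mod_cast h2
    omega
  obtain ⟨u, hu, hEu⟩ := exists_vec98 (hid ν) (hS.star ν) hν4
  obtain ⟨w, hw, hEw⟩ := exists_vec98 (hid ν') (hS.star ν') (by omega)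
  have hEu' : E ν = ro u u := hEu
  have hEw' : E ν' = ro w w := hEw
  have hu' : ip u u = 1 := hu
  have hw' : ip w w = 1 := hw
  have hO : On u w := by
    refine ⟨hu', hw', ?_⟩
    have h1 := m4
    rw [hEu', hEw', ro_mul] at h1
    by_contra h2
    have h3 := (smul_eq_zero.1 h1).resolve_left h2
    have h4 := congrArg (fun M : Matrix n n ℂ => ip u (M *ᵥ w)) h3
    simp only [Matrix.zero_mulVec, ip_zero_right, ro_mulVec, ip_smul_right, hu', hw', mul_one] at h4
    exact one_ne_zero h4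
  have T : Th E μ ν ν' u w := by
    refine ⟨hO, Ne.symm hν1, Ne.symm hν'1.1, Ne.symm hν'1.2, ?_, hEu', hEw'⟩
    have h1 : (1 - E μ - E ν - E ν').rank = 0 := by omega
    have h2 := rank_eq_zero98 h1
    rw [← hEu', ← hEw']
    rw [sub_sub, sub_sub, sub_eq_zero] at h2
    rw [← h2.symm, add_assoc]
  exact T.r4 A hn hS hh h0

/-- **A simple irreducible Lie algebra of matrices of trace zero and size `r` at least five that contains a
diagonalisable matrix with an eigenvalue of multiplicity at least `r - 2` and that preserves no bilinear form is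
`sl`.** -/
theorem tyN_two43 {r : ℕ} (hr : 5 ≤ r) {L0 : Submodule ℂ (Matrix (Fin r) (Fin r) ℂ)}
    (hbr : ∀ X ∈ L0, ∀ Y ∈ L0, X * Y - Y * X ∈ L0)
    (hirr : ∀ W : Submodule ℂ (Fin r → ℂ), (∀ X ∈ L0, ∀ w ∈ W, X *ᵥ w ∈ W) → W = ⊥ ∨ W = ⊤)
    (htr : ∀ X ∈ L0, X.trace = 0) (hs : Smp L0) {h : Matrix (Fin r) (Fin r) ℂ} (hh : h ∈ L0) (h0 : h ≠ 0)
    {E : ℝ → Matrix (Fin r) (Fin r) ℂ} {Λ : Finset ℝ} (hE : SD h E Λ) {μ : ℝ} (hμ : r ≤ (E μ).rank + 2)
    (hns : ¬ ∃ F : Matrix (Fin r) (Fin r) ℂ, F ≠ 0 ∧ ∀ X ∈ L0, Xᵀ * F + F * X = 0) :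
    ∀ X : Matrix (Fin r) (Fin r) ℂ, X.trace = 0 → X ∈ L0 := by
  have hne : Nonempty (Fin r) := ⟨⟨0, by omega⟩⟩
  obtain ⟨B, Bi, h1, h2, h3, h4⟩ := exists_herm L0 hbr hirr htr hh hE
  let L : Submodule ℂ (Matrix (Fin r) (Fin r) ℂ) :=
    { carrier := {x | cj Bi B x ∈ L0}
      add_mem' := by
        intro x y hx hy
        change cj Bi B (x + y) ∈ L0
        rw [cj_add]
        exact L0.add_mem hx hy
      zero_mem' := by
        change cj Bi B 0 ∈ L0
        rw [cj_zero]
        exact L0.zero_mem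
      smul_mem' := by
        intro c x hx
        change cj Bi B (c • x) ∈ L0
        rw [cj_smul]
        exact L0.smul_mem c hx }
  have hL : ∀ x, x ∈ L ↔ cj Bi B x ∈ L0 := fun x => Iff.rfl
  have hL' : ∀ x, cj B Bi x ∈ L ↔ x ∈ L0 := fun x => by rw [hL, cj_cj h2]
  have hcjt : ∀ x : Matrix (Fin r) (Fin r) ℂ, (cj Bi B x).trace = x.trace := by
    intro x
    unfold cj
    rw [Matrix.trace_mul_comm, ← mul_assoc, h1, one_mul]
  have A : SAl L := by
    refine ⟨?_, ?_, ?_, ?_, ?_⟩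
    · intro x hx y hy
      rw [hL, cj_sub, ← cj_mul h1, ← cj_mul h1]
      exact hbr _ hx _ hy
    · intro x hx
      have e1 := h4 _ hx
      rwa [cj_cj h1] at e1
    · intro x hx
      rw [← hcjt]
      exact htr _ hx
    · intro T hT
      obtain ⟨c, hc⟩ := schur55 hirr (T := cj Bi B T) (by
        intro X hX
        have e1 := hT (cj B Bi X) ((hL' X).2 hX)
        have e2 := congrArg (cj Bi B) e1
        rwa [← cj_mul h1, ← cj_mul h1, cj_cj h2] at e2)
      refine ⟨c, ?_⟩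
      have e3 := congrArg (cj B Bi) hc
      rwa [cj_cj h1, cj_smul, cj_one h1] at e3
    · intro K hK hKi
      let K0 : Submodule ℂ (Matrix (Fin r) (Fin r) ℂ) :=
        { carrier := {x | cj B Bi x ∈ K}
          add_mem' := by
            intro x y hx hy
            change cj B Bi (x + y) ∈ K
            rw [cj_add]
            exact K.add_mem hx hy
          zero_mem' := by
            change cj B Bi 0 ∈ K
            rw [cj_zero]
            exact K.zero_mem
          smul_mem' := by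
            intro c x hx
            change cj B Bi (c • x) ∈ K
            rw [cj_smul]
            exact K.smul_mem c hx }
      have hK0 : ∀ x, x ∈ K0 ↔ cj B Bi x ∈ K := fun x => Iff.rfl
      rcases hs K0 (fun X hX => (hL' X).1 (hK hX)) (by
        intro X hX Y hY
        rw [hK0, cj_sub, ← cj_mul h2, ← cj_mul h2]
        exact hKi _ ((hL' X).2 hX) _ hY) with e1 | e1
      · left
        rw [eq_bot_iff]
        intro x hx
        have e2 : cj Bi B x ∈ K0 := by rw [hK0, cj_cj h1]; exact hx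
        rw [e1, Submodule.mem_bot] at e2
        rw [Submodule.mem_bot, ← cj_cj h1 x, e2, cj_zero]
      · right
        refine le_antisymm hK fun x hx => ?_
        have e2 : cj Bi B x ∈ K0 := by rw [e1]; exact hx
        rwa [hK0, cj_cj h1] at e2
  have hS := spec55 (sd_cj55 hE h1 h2) h3
  have hid : E μ * E μ = E μ := by rw [hE.mul, if_pos rfl]
  have hrk : (cj B Bi (E μ)).rank = (E μ).rank := rank_cj h1 h2 hid
  rcases A.two (by rw [Fintype.card_fin]; exact hr) hS ((hL' h).2 hh) (by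
    intro e1
    apply h0
    rw [← cj_cj h2 h, e1, cj_zero]) (μ := μ) (by rw [Fintype.card_fin, hrk]; exact hμ) with e1 | ⟨F, hF0, hF⟩
  · intro X hX
    rw [← hL' X]
    apply e1
    rw [← hcjt, cj_cj h2]
    exact hX
  · exfalso
    apply hns
    have b1 : Bᵀ * Biᵀ = 1 := by rw [← Matrix.transpose_mul, h2, Matrix.transpose_one]
    have b2 : Biᵀ * Bᵀ = 1 := by rw [← Matrix.transpose_mul, h1, Matrix.transpose_one]
    refine ⟨Bᵀ * F * B, ?_, ?_⟩
    · intro e1
      apply hF0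
      calc F = (Biᵀ * Bᵀ) * F * (B * Bi) := by rw [b2, h1, one_mul, mul_one]
        _ = Biᵀ * (Bᵀ * F * B) * Bi := by simp only [mul_assoc]
        _ = 0 := by rw [e1, mul_zero, zero_mul]
    · intro X hX
      have e1 := hF _ ((hL' X).2 hX)
      have e2 : (cj B Bi X)ᵀ = Biᵀ * Xᵀ * Bᵀ := by
        unfold cj
        rw [Matrix.transpose_mul, Matrix.transpose_mul, ← mul_assoc]
      rw [e2] at e1
      unfold cj at e1
      calc Xᵀ * (Bᵀ * F * B) + Bᵀ * F * B * X = (Bᵀ * Biᵀ) * Xᵀ * Bᵀ * F * B + Bᵀ * F * B * X * (Bi * B) := by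
            rw [b1, h2, one_mul, mul_one]
            simp only [mul_assoc]
        _ = Bᵀ * (Biᵀ * Xᵀ * Bᵀ * F + F * (B * X * Bi)) * B := by
            rw [mul_add, add_mul]
            simp only [mul_assoc]
        _ = 0 := by rw [e1, mul_zero, zero_mul]

end MH
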