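import Pool.Agent.Helper43.BL2.Defs
import Pool.Agent.Helper81.BL2.Num

/-!
Numerics for blocks with a Hodge number at least `r - 2`, `r ≥ 5`.
-/

namespace MH

/-- the sum of the coefficients of the product that are not at `p` -/
private lemma split55 (F G : ℤ →₀ ℕ) {v : ℤ → ℕ} {S : Finset ℤ} {r : ℕ} (hS : ∀ p, p ∉ S → v p = 0)
    (hr : ∑ p ∈ S, v p = r) (hv : ∀ p : ℤ, v p = F.sum fun i x => x * G (p - i)) (p : ℤ) :
    r = (∑ i ∈ F.support, F i) * ∑ j ∈ G.support, G j ∧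
      r = v p + ∑ i ∈ F.support, ∑ j ∈ G.support, if ¬ (i + j = p) then F i * G j else 0 := by
  classical
  have t1 := sum_conv81 F G hS hv (fun _ => True)
  simp only [Finset.filter_true, if_true] at t1
  rw [hr, sum_mul81] at t1
  refine ⟨t1, ?_⟩
  have t2 : v p = ∑ i ∈ F.support, ∑ j ∈ G.support, if i + j = p then F i * G j else 0 := by rw [hv, conv_eq81]
  rw [t2, t1, ← sum_mul81, ← Finset.sum_add_distrib]
  refine Finset.sum_congr rfl fun i _ => ?_
  rw [← Finset.sum_add_distrib]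
  refine Finset.sum_congr rfl fun j _ => ?_
  by_cases h : i + j = p <;> simp [h]

private lemma ge_left55 (F G : ℤ →₀ ℕ) (p : ℤ) (hG : 2 ≤ G.support.card) :
    ∑ i ∈ F.support, F i ≤ ∑ i ∈ F.support, ∑ j ∈ G.support, if ¬ (i + j = p) then F i * G j else 0 := by
  classical
  refine Finset.sum_le_sum fun i _ => ?_
  obtain ⟨j, hj, hne⟩ : ∃ j ∈ G.support, j ≠ p - i := Finset.exists_mem_ne (by omega) _
  have h1 : (if ¬ (i + j = p) then F i * G j else 0) ≤
      ∑ j ∈ G.support, if ¬ (i + j = p) then F i * G j else 0 :=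
    Finset.single_le_sum (f := fun j => if ¬ (i + j = p) then F i * G j else 0) (fun _ _ => Nat.zero_le _) hj
  refine le_trans ?_ h1
  rw [if_pos (by intro h; exact hne (by omega))]
  exact Nat.le_mul_of_pos_right _ (Nat.pos_of_ne_zero (Finsupp.mem_support_iff.1 hj))

/-- numbers with one number at least `r - 2` are indecomposable -/
theorem indecU_two55 {u : ℤ → ℕ} {S : Finset ℤ} {r : ℕ} (h5 : 5 ≤ r) (hS : ∀ p, p ∉ S → u p = 0)
    (hr : ∑ p ∈ S, u p = r) {p : ℤ} (hp : r ≤ u p + 2) : IndecU u := by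
  classical
  intro F G hf
  by_contra hcon
  rw [not_or, not_le, not_le] at hcon
  obtain ⟨hF, hG⟩ := hcon
  obtain ⟨t1, t3⟩ := split55 F G hS hr hf p
  have c1 := ge_left55 F G p (show 2 ≤ G.support.card from hG)
  have c2 : ∑ i ∈ G.support, G i ≤ ∑ i ∈ F.support, ∑ j ∈ G.support, if ¬ (i + j = p) then F i * G j else 0 := by
    rw [Finset.sum_comm]
    have := ge_left55 G F p (show 2 ≤ F.support.card from hF)
    refine this.trans (le_of_eq ?_)
    refine Finset.sum_congr rfl fun i _ => Finset.sum_congr rfl fun j _ => ?_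
    rw [add_comm i j, mul_comm (G i) (F j)]
  obtain ⟨a, ha⟩ : ∃ a, a = ∑ i ∈ F.support, F i := ⟨_, rfl⟩
  obtain ⟨b, hb⟩ : ∃ b, b = ∑ i ∈ G.support, G i := ⟨_, rfl⟩
  rw [← ha, ← hb] at t1
  rw [← ha] at c1
  rw [← hb] at c2
  have a2 : a ≤ 2 := by omega
  have b2 : b ≤ 2 := by omega
  have h6 : a * b ≤ 2 * 2 := Nat.mul_le_mul a2 b2
  omega

/-- two families of numbers with one number at least `r - 2` -/
theorem noF_two55 {u v : ℤ → ℕ} {S S' : Finset ℤ} {r : ℕ} (h5 : 5 ≤ r) (hS : ∀ p, p ∉ S → u p = 0)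
    (hS' : ∀ p, p ∉ S' → v p = 0) (hr : ∑ p ∈ S, u p = r) (hr' : ∑ p ∈ S', v p = r) (hu : ∃ p, r ≤ u p + 2)
    (hv : ∃ p, r ≤ v p + 2) (hn : ∀ p, u p ≠ r) : NoF u v := by
  classical
  intro F G hf hg
  by_contra cg
  obtain ⟨q, hq⟩ := hv
  obtain ⟨p, hp⟩ := hu
  obtain ⟨t1, t3⟩ := split55 F G hS' hr' hf q
  have c1 := ge_left55 F G q (by omega)
  obtain ⟨a, ha⟩ : ∃ a, a = ∑ i ∈ F.support, F i := ⟨_, rfl⟩
  obtain ⟨b, hb⟩ : ∃ b, b = ∑ i ∈ G.support, G i := ⟨_, rfl⟩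
  rw [← ha, ← hb] at t1
  rw [← ha] at c1
  have hb' : b ∣ u p := by
    rw [hb]
    exact hg p
  have hbr : b ∣ r := ⟨a, by rw [t1, mul_comm]⟩
  have hle : u p ≤ r := by
    by_cases h : p ∈ S
    · rw [← hr]
      exact Finset.single_le_sum (f := u) (fun _ _ => Nat.zero_le _) h
    · rw [hS p h]
      exact Nat.zero_le _
  have hne := hn p
  have h6 : b ∣ r - u p := Nat.dvd_sub hbr hb'
  have h7 : b ≤ r - u p := Nat.le_of_dvd (by omega) h6
  have a2 : a ≤ 2 := by omega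
  have b2 : b ≤ 2 := by omega
  have h8 : a * b ≤ 2 * 2 := Nat.mul_le_mul a2 b2
  omega

end MH
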