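import Pool.Agent.Helper43.BL2.Gal
import Pool.Agent.Helper43.BL2.Fam2
import Pool.Agent.Helper55.BL2.Two
import Pool.Agent.Helper55.BL2.Fin
import Pool.Agent.Helper55.BL2.LowN

/-!
Project BL2 (MP_b8862a_ag): weight two and geometric genus at most two: blocks of rank at least five that are not self-dual.
-/

set_option linter.unusedSectionVars false
set_option linter.unusedVariables false

open Matrix Module GH OW

namespace MH

variable {n : Type*} [Fintype n] [DecidableEq n]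
variable {w : ℤ} {Q : Matrix n n ℚ} {S : Finset ℤ} {P : ℤ → Matrix n n ℂ} {Γ : Subgroup (GL n ℂ)}
variable {r : ℕ} {W : Matrix n (Fin r) ℂ} {V : Matrix (Fin r) n ℂ} {e : Matrix n n ℂ}
variable {ι : Type*} {T : ι → Finset ℤ} {R : ι → ℤ → Matrix n n ℂ}

/-- a form for the traceless part of an irreducible algebra is non-degenerate -/
private lemma inv_form55 {L : Submodule ℂ (Matrix (Fin r) (Fin r) ℂ)}
    (hirr : ∀ U : Submodule ℂ (Fin r → ℂ), (∀ y ∈ L, ∀ u ∈ U, y *ᵥ u ∈ U) → U = ⊥ ∨ U = ⊤)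
    {F0 : Matrix (Fin r) (Fin r) ℂ} (hF0 : F0 ≠ 0) (hF : ∀ X ∈ L, Xᵀ * F0 + F0 * X = 0) :
    ∃ Fi : Matrix (Fin r) (Fin r) ℂ, F0 * Fi = 1 ∧ Fi * F0 = 1 := by
  have hker : LinearMap.ker (Matrix.toLin' F0) = ⊥ := by
    rcases hirr (LinearMap.ker (Matrix.toLin' F0)) (by
      intro y hy u hu
      have hc := hF y hy
      rw [LinearMap.mem_ker, Matrix.toLin'_apply] at hu ⊢
      have h1 : F0 * y = -(yᵀ * F0) := eq_neg_of_add_eq_zero_right hc
      rw [Matrix.mulVec_mulVec, h1, Matrix.neg_mulVec, ← Matrix.mulVec_mulVec, hu, Matrix.mulVec_zero, neg_zero]) with h1 | h1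
    · exact h1
    · exfalso
      apply hF0
      rw [LinearMap.ker_eq_top] at h1
      exact (LinearEquiv.map_eq_zero_iff _).1 h1
  have hu : IsUnit F0 := by
    rw [← Matrix.isUnit_toLin'_iff]
    exact (LinearMap.isUnit_iff_ker_eq_bot _).2 hker
  obtain ⟨⟨F1, Fi, h1, h2⟩, rfl⟩ := hu
  exact ⟨Fi, h1, h2⟩

/-- an algebra with a form, for Hodge-Tate decompositions with a number at one that is larger than the others: the weight
of the form is two -/
private lemma wt_form55 (G : IsGalU w Q S P Γ) (he : IsBlk P e) (hVW : V * W = 1) (hWV : W * V = e) (hr : 5 ≤ r)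
    {S1 : Finset ℤ} {R1 : ℤ → Matrix n n ℂ} (hR1 : IsHTw w Q S1 Γ R1)
    (h0 : ∀ p, p ≠ 1 → (e * R1 p).rank ≤ 2) (h1 : r ≤ (e * R1 1).rank + 2)
    {F0 Fi : Matrix (Fin r) (Fin r) ℂ} (hi1 : F0 * Fi = 1) (hi2 : Fi * F0 = 1)
    (hF : ∀ X ∈ T0 (cpS W V (LG Γ)), Xᵀ * F0 + F0 * X = 0) :
    (V * hR S1 R1 * W)ᵀ * F0 + F0 * (V * hR S1 R1 * W) = (2 : ℂ) • F0 := by
  classical
  obtain ⟨t, E, Λ, k1, k2, k3, k4⟩ := exists_sh43 G he hVW hWV (by omega) hR1
  obtain ⟨A, C⟩ := G.exists_CR hR1 he hVW hWV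
  have e1 := hF _ k1
  obtain ⟨X, hX⟩ : ∃ X, X = V * hR S1 R1 * W := ⟨_, rfl⟩
  rw [← hX] at e1 ⊢
  have e2 : Xᵀ * F0 + F0 * X = ((2 : ℂ) * t) • F0 := by
    rw [Matrix.transpose_sub, Matrix.transpose_smul, Matrix.transpose_one, Matrix.sub_mul, Matrix.mul_sub,
      Matrix.smul_mul, Matrix.mul_smul, Matrix.one_mul, Matrix.mul_one] at e1
    have e3 : Xᵀ * F0 + F0 * X = (t : ℂ) • F0 + (t : ℂ) • F0 := by
      rw [← sub_eq_zero, ← e1]
      abel
    rw [e3, two_mul, add_smul]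
  have hXA : ∀ p, X * A p = (p : ℂ) • A p := by
    intro p
    rw [hX, C.h, Finset.sum_mul]
    by_cases hp : p ∈ S1
    · rw [Finset.sum_eq_single_of_mem p hp]
      · rw [smul_mul_assoc, C.mul, if_pos rfl]
      · intro q _ hq
        rw [smul_mul_assoc, C.mul, if_neg hq, smul_zero]
    · rw [C.supp p hp, smul_zero]
      exact Finset.sum_eq_zero fun q _ => mul_zero _
  have hpair : ∀ p q : ℤ, (((p : ℂ) + (q : ℂ)) - (2 : ℂ) * t) • ((A p)ᵀ * F0 * A q) = 0 := by
    intro p q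
    have e3 : (A p)ᵀ * Xᵀ = (p : ℂ) • (A p)ᵀ := by
      rw [← Matrix.transpose_mul, hXA, Matrix.transpose_smul]
    have e4 : (A p)ᵀ * (Xᵀ * F0 + F0 * X) * A q = ((p : ℂ) + (q : ℂ)) • ((A p)ᵀ * F0 * A q) := by
      calc (A p)ᵀ * (Xᵀ * F0 + F0 * X) * A q = ((A p)ᵀ * Xᵀ) * F0 * A q + (A p)ᵀ * F0 * (X * A q) := by
            rw [Matrix.mul_add, Matrix.add_mul]
            simp only [Matrix.mul_assoc]
        _ = _ := by rw [e3, hXA, Matrix.smul_mul, Matrix.smul_mul, Matrix.mul_smul, add_smul]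
    rw [e2, Matrix.mul_smul, Matrix.smul_mul] at e4
    rw [sub_smul, ← e4, sub_self]
  have hA1 : 3 ≤ (A 1).rank := by
    rw [C.rank]
    omega
  -- the part at one is paired with one
  have h11 : (A 1)ᵀ * F0 * A 1 ≠ 0 := by
    intro hz
    have e5 : F0 * A 1 = ∑ p ∈ S1, (A p)ᵀ * F0 * A 1 := by
      have e6 : (1 : Matrix (Fin r) (Fin r) ℂ) = ∑ p ∈ S1, (A p)ᵀ := by
        rw [← Matrix.transpose_sum, C.sum, Matrix.transpose_one]
      calc F0 * A 1 = 1 * (F0 * A 1) := by rw [Matrix.one_mul]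
        _ = _ := by
          rw [e6, Finset.sum_mul]
          exact Finset.sum_congr rfl fun p _ => by rw [Matrix.mul_assoc]
    have hrk : (F0 * A 1).rank = (A 1).rank := by
      refine le_antisymm (Matrix.rank_mul_le_right _ _) ?_
      calc (A 1).rank = (Fi * (F0 * A 1)).rank := by rw [← Matrix.mul_assoc, hi2, Matrix.one_mul]
        _ ≤ (F0 * A 1).rank := Matrix.rank_mul_le_right _ _
    -- some part is non-zero
    obtain ⟨p, hp, hp0⟩ : ∃ p ∈ S1, (A p)ᵀ * F0 * A 1 ≠ 0 := by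
      by_contra hcon
      push Not at hcon
      rw [Finset.sum_eq_zero hcon] at e5
      rw [e5, Matrix.rank_zero] at hrk
      omega
    have hp1 : p ≠ 1 := by
      rintro rfl
      exact hp0 hz
    have hpt := (smul_eq_zero.1 (hpair p 1)).resolve_right hp0
    have e7 : F0 * A 1 = (A p)ᵀ * F0 * A 1 := by
      rw [e5]
      refine Finset.sum_eq_single_of_mem p hp fun q _ hq => ?_
      by_contra hq0
      have hqt := (smul_eq_zero.1 (hpair q 1)).resolve_right hq0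
      have e8 : (p : ℂ) = q := by
        push_cast at hpt hqt
        linear_combination hpt - hqt
      exact hq (by exact_mod_cast e8.symm)
    have e9 : (F0 * A 1).rank ≤ 2 := by
      rw [e7, Matrix.mul_assoc]
      refine (Matrix.rank_mul_le_left _ _).trans ?_
      rw [Matrix.rank_transpose, C.rank]
      exact h0 p hp1
    omega
  have ht := (smul_eq_zero.1 (hpair 1 1)).resolve_right h11
  have ht' : (2 : ℂ) * t = 2 := by
    push_cast at ht
    linear_combination -ht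
  rw [e2, ht']

/-- **an algebra with a form comes from an invariant form of the block** -/
theorem IsHF.form_low55 {Q : Matrix n n ℚ} {P : ℤ → Matrix n n ℂ} (H : IsHW 2 Q S P) (F : IsHF 2 Q P Γ T R)
    (G : IsGalU 2 Q S P Γ) (he : IsBlk P e) (hVW : V * W = 1) (hWV : W * V = e) (hr : 5 ≤ r)
    (h0 : ∀ i p, p ≠ 1 → (e * R i p).rank ≤ 2) (h1 : ∀ i, r ≤ (e * R i 1).rank + 2)
    (h2 : ∃ F0 : Matrix (Fin r) (Fin r) ℂ, F0 ≠ 0 ∧ ∀ X ∈ T0 (cpS W V (LG Γ)), Xᵀ * F0 + F0 * X = 0) : DualB Q P e := by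
  classical
  obtain ⟨F0, hF0, hF⟩ := h2
  have hirr := T0_irr (by omega) (F.irr43 G he hVW hWV)
  obtain ⟨Fi, hi1, hi2⟩ := inv_form55 hirr hF0 hF
  have hVe : V * e = V := by rw [← hWV, ← Matrix.mul_assoc, hVW, Matrix.one_mul]
  have heW : e * W = W := by rw [← hWV, Matrix.mul_assoc, hVW, Matrix.mul_one]
  obtain ⟨B, Bi, Qi, -, -, h3, h4, -⟩ := H.exists_basis
  obtain ⟨F', hF'⟩ : ∃ F', F' = Vᵀ * F0 * V := ⟨_, rfl⟩
  have key : ∀ i, (hR (T i) (R i))ᵀ * F' + F' * hR (T i) (R i) = (2 : ℂ) • F' := by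
    intro i
    have k1 := wt_form55 G he hVW hWV hr (F.ht i) (h0 i) (h1 i) hi1 hi2 hF
    obtain ⟨h, hh⟩ : ∃ h, h = hR (T i) (R i) := ⟨_, rfl⟩
    have hc : h * e = e * h := by
      rw [hh]
      exact G.LG_com (F.ht i).hR_mem he.mem
    rw [← hh] at k1 ⊢
    have k2 : V * h = V * h * W * V := by
      calc V * h = (V * e) * h := by rw [hVe]
        _ = V * (h * e) := by rw [Matrix.mul_assoc, ← hc]
        _ = V * h * W * V := by rw [← hWV]; simp only [Matrix.mul_assoc]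
    obtain ⟨Y, hY⟩ : ∃ Y, Y = V * h * W := ⟨_, rfl⟩
    rw [← hY] at k1 k2
    calc hᵀ * F' + F' * h = (V * h)ᵀ * F0 * V + Vᵀ * F0 * (V * h) := by
          rw [hF', Matrix.transpose_mul]
          simp only [Matrix.mul_assoc]
      _ = Vᵀ * (Yᵀ * F0 + F0 * Y) * V := by
          rw [k2, Matrix.transpose_mul, Matrix.mul_add, Matrix.add_mul]
          simp only [Matrix.mul_assoc]
      _ = (2 : ℂ) • F' := by rw [k1, Matrix.mul_smul, Matrix.smul_mul, ← hF']
  refine ⟨Qi * F', F.com _ fun i => ?_, ?_⟩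
  · have k1 := key i
    have k2 := (F.ht i).skewW
    obtain ⟨h, hh⟩ : ∃ h, h = hR (T i) (R i) := ⟨_, rfl⟩
    rw [← hh] at k1 k2 ⊢
    have k3 : toC Q * h = (2 : ℂ) • toC Q - hᵀ * toC Q := by
      rw [Matrix.transpose_sub, Matrix.transpose_smul, Matrix.transpose_smul, Matrix.transpose_one, Matrix.sub_mul,
        Matrix.mul_sub, Matrix.smul_mul, Matrix.smul_mul, Matrix.mul_smul, Matrix.mul_smul, Matrix.one_mul,
        Matrix.mul_one] at k2
      have k4 : (2 : ℂ) • (toC Q * h - ((2 : ℂ) • toC Q - hᵀ * toC Q)) = 0 := by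
        rw [← k2]
        push_cast
        rw [smul_sub, smul_sub, two_smul ℂ (toC Q), smul_add, two_smul ℂ (toC Q)]
        abel
      exact sub_eq_zero.1 ((smul_eq_zero.1 k4).resolve_left two_ne_zero)
    have k5 : toC Q * (h * (Qi * F')) = toC Q * (Qi * F' * h) := by
      calc toC Q * (h * (Qi * F')) = (toC Q * h) * Qi * F' := by simp only [Matrix.mul_assoc]
        _ = (2 : ℂ) • ((toC Q * Qi) * F') - hᵀ * ((toC Q * Qi) * F') := by
            rw [k3, Matrix.sub_mul, Matrix.sub_mul, Matrix.smul_mul, Matrix.smul_mul]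
            simp only [Matrix.mul_assoc]
        _ = F' * h := by
            rw [h3, Matrix.one_mul, ← k1]
            abel
        _ = (toC Q * Qi) * F' * h := by rw [h3, Matrix.one_mul]
        _ = toC Q * (Qi * F' * h) := by simp only [Matrix.mul_assoc]
    calc Qi * F' * h = (Qi * toC Q) * (Qi * F' * h) := by rw [h4, Matrix.one_mul]
      _ = Qi * (toC Q * (h * (Qi * F'))) := by rw [k5, Matrix.mul_assoc]
      _ = (Qi * toC Q) * (h * (Qi * F')) := by rw [Matrix.mul_assoc]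
      _ = h * (Qi * F') := by rw [h4, Matrix.one_mul]
  · intro hz
    apply hF0
    have k1 : toC Q * (Qi * F') = F' := by rw [← Matrix.mul_assoc, h3, Matrix.one_mul]
    rw [k1] at hz
    have k2 : Wᵀ * (eᵀ * F' * e) * W = F0 := by
      calc Wᵀ * (eᵀ * F' * e) * W = (V * (e * W))ᵀ * F0 * (V * (e * W)) := by
            rw [hF', Matrix.transpose_mul, Matrix.transpose_mul]
            simp only [Matrix.mul_assoc]
        _ = F0 := by rw [heW, hVW, Matrix.transpose_one, Matrix.one_mul, Matrix.mul_one]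
    rw [← k2, hz, Matrix.mul_zero, Matrix.zero_mul]

/-- the numbers of a block without symmetric invariant form, weight two -/
theorem IsHW.sum_two55 {Q : Matrix n n ℚ} {P : ℤ → Matrix n n ℂ} (H : IsHW 2 Q S P)
    (hP : ∀ p, p ≠ 0 → p ≠ 1 → p ≠ 2 → P p = 0) {f : Matrix n n ℂ} (hf : IsBlk P f) (hO : ¬ OrthB Q P f) :
    (f * P 2).rank + (f * P 0).rank ≤ (P 2).rank ∧ f.rank = (f * P 0).rank + (f * P 1).rank + (f * P 2).rank := by
  classical
  obtain ⟨B, Bi, Qi, h1, h2, h3, h4, hM⟩ := H.exists_basis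
  have hPP : ∀ p, P p * P p = P p := fun p => by rw [H.mul, if_pos rfl]
  have hfP : ∀ p, (f * P p) * (f * P p) = f * P p := by
    intro p
    have hPe := EC_P hf.mem p
    calc (f * P p) * (f * P p) = f * (P p * f) * P p := by simp only [mul_assoc]
      _ = (f * f) * (P p * P p) := by rw [← hPe]; simp only [mul_assoc]
      _ = f * P p := by rw [hf.idem, hPP]
  have hsy := H.Q_symm_even (m := 1) (by norm_num)
  obtain ⟨c1, c2⟩ := H.adj_orth55 hsy h3 h4 hf hO
  set f' := Qi * fᵀ * toC Q with hf'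
  have hf'E : f' ∈ EC P := H.EC_adj h3 h4 hf.mem
  have hf'f' : f' * f' = f' := by
    calc f' * f' = Qi * fᵀ * (toC Q * Qi) * fᵀ * toC Q := by rw [hf']; simp only [mul_assoc]
      _ = Qi * (f * f)ᵀ * toC Q := by rw [h3, mul_one, Matrix.transpose_mul]; simp only [mul_assoc]
      _ = f' := by rw [hf.idem]
  have hf'P : (f' * P 2) * (f' * P 2) = f' * P 2 := by
    have hPe := EC_P hf'E 2
    calc (f' * P 2) * (f' * P 2) = f' * (P 2 * f') * P 2 := by simp only [mul_assoc]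
      _ = (f' * f') * (P 2 * P 2) := by rw [← hPe]; simp only [mul_assoc]
      _ = f' * P 2 := by rw [hf'f', hPP]
  have htr : (f' * P 2).trace = (f * P 0).trace := by
    have d1 : toC Q * P 2 = (P 0)ᵀ * toC Q := by
      have := H.transpose_mul_Q 0
      rw [sub_zero] at this
      exact this.symm
    calc (f' * P 2).trace = (Qi * (fᵀ * (P 0)ᵀ) * toC Q).trace := by
          rw [hf', mul_assoc _ (toC Q), d1]
          simp only [mul_assoc]
      _ = (toC Q * (Qi * (fᵀ * (P 0)ᵀ))).trace := Matrix.trace_mul_comm _ _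
      _ = ((P 0 * f)ᵀ).trace := by rw [← mul_assoc, h3, one_mul, Matrix.transpose_mul]
      _ = (f * P 0).trace := by rw [Matrix.trace_transpose, Matrix.trace_mul_comm]
  have hr0 : (f' * P 2).rank = (f * P 0).rank := by
    rw [trace_eq_rank hf'P, trace_eq_rank (hfP 0)] at htr
    exact_mod_cast htr
  have hg2 : (f * P 2 + f' * P 2) * (f * P 2 + f' * P 2) = f * P 2 + f' * P 2 := by
    have d1 : (f * P 2) * (f' * P 2) = 0 := by
      calc (f * P 2) * (f' * P 2) = f * (P 2 * f') * P 2 := by simp only [mul_assoc]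
        _ = (f * f') * P 2 * P 2 := by rw [← EC_P hf'E 2]; simp only [mul_assoc]
        _ = 0 := by rw [c2, zero_mul, zero_mul]
    have d2 : (f' * P 2) * (f * P 2) = 0 := by
      calc (f' * P 2) * (f * P 2) = f' * (P 2 * f) * P 2 := by simp only [mul_assoc]
        _ = (f' * f) * P 2 * P 2 := by rw [← EC_P hf.mem 2]; simp only [mul_assoc]
        _ = 0 := by rw [c1, zero_mul, zero_mul]
    rw [add_mul, mul_add, mul_add, d1, d2, hfP 2, hf'P, add_zero, zero_add]
  refine ⟨?_, ?_⟩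
  · have d1 : (f * P 2 + f' * P 2).trace = (f * P 2).trace + (f' * P 2).trace := Matrix.trace_add _ _
    rw [trace_eq_rank hg2, trace_eq_rank (hfP 2), trace_eq_rank hf'P, hr0] at d1
    have d2 : (f * P 2 + f' * P 2).rank = (f * P 2).rank + (f * P 0).rank := by exact_mod_cast d1
    rw [← d2, ← add_mul]
    exact Matrix.rank_mul_le_right _ _
  · have d0 : (1 : Matrix n n ℂ) = P 0 + P 1 + P 2 := by
      refine H.ext_right fun q _ => ?_
      rw [one_mul, add_mul, add_mul, H.mul, H.mul, H.mul]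
      by_cases q0 : 0 = q
      · subst q0
        simp
      by_cases q1 : 1 = q
      · subst q1
        simp
      by_cases q2 : 2 = q
      · subst q2
        simp
      rw [if_neg q0, if_neg q1, if_neg q2, hP q (Ne.symm q0) (Ne.symm q1) (Ne.symm q2)]
      simp
    have d1 : f.trace = (f * P 0).trace + (f * P 1).trace + (f * P 2).trace := by
      rw [← Matrix.trace_add, ← Matrix.trace_add, ← mul_add, ← mul_add, ← d0, mul_one]
    rw [trace_eq_rank hf.idem, trace_eq_rank (hfP 0), trace_eq_rank (hfP 1), trace_eq_rank (hfP 2)] at d1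
    exact_mod_cast d1

/-- **Weight two and geometric genus at most two: blocks of rank at least five that are not self-dual.** -/
theorem IsHF.tyN_low55 {Q : Matrix n n ℚ} {P : ℤ → Matrix n n ℂ} (H : IsHW 2 Q S P)
    (hP : ∀ p, p ≠ 0 → p ≠ 1 → p ≠ 2 → P p = 0) (hg : (P 2).rank ≤ 2) (G : IsGalU 2 Q S P Γ) (F : IsHF 2 Q P Γ T R)
    {s : ι → (ℂ ≃+* ℂ)} (hs : ∀ i, IsHTs 2 Q S P Γ (s i).symm (T i) (R i)) (he : IsBlk P e) (hVW : V * W = 1)
    (hWV : W * V = e) (hr : 5 ≤ r) (hD : ¬ DualB Q P e) : TyN (cpS W V (LG Γ)) := by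
  classical
  have hne : Nonempty (Fin r) := ⟨⟨0, by omega⟩⟩
  have hr' : 0 < r := by omega
  have hre := _root_.MH.blk_rank he hVW hWV
  have hirr := F.irr43 G he hVW hWV
  have hnum : ∀ i p, (e * R i p).rank = (e.map (s i) * P p).rank := fun i p => by
    rw [(hs i).rank e he p, H.rank_symm43 he]
  -- the numbers
  have hnO : ∀ i, ¬ OrthB Q P (e.map (s i)) := by
    intro i hO
    apply hD
    have h1 := hO.aut43 (s i).symm
    have h2 : (e.map (s i)).map (s i).symm = e := by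
      ext a b
      simp
    rw [h2] at h1
    exact h1.self43
  have hn : ∀ i, (∀ p, p ≠ 0 → p ≠ 1 → p ≠ 2 → (e * R i p).rank = 0) ∧ (e * R i 0).rank ≤ 2 ∧ (e * R i 2).rank ≤ 2 ∧
      r ≤ (e * R i 1).rank + 2 := by
    intro i
    obtain ⟨k1, k2⟩ := H.sum_two55 hP (he.aut (s i)) (hnO i)
    rw [rank_aut _ he.idem, hre] at k2
    refine ⟨fun p p0 p1 p2 => ?_, ?_, ?_, ?_⟩
    · rw [hnum, hP p p0 p1 p2, Matrix.mul_zero, Matrix.rank_zero]
    · rw [hnum]
      omega
    · rw [hnum]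
      omega
    · rw [hnum]
      omega
  have hn0 : ∀ i p, p ≠ 1 → (e * R i p).rank ≤ 2 := by
    intro i p hp
    by_cases p0 : p = 0
    · rw [p0]
      exact (hn i).2.1
    by_cases p2 : p = 2
    · rw [p2]
      exact (hn i).2.2.1
    rw [(hn i).1 p p0 hp p2]
    exact Nat.zero_le _
  obtain ⟨i0, hns⟩ := F.exists_ns43 G he hVW hWV (by omega)
  have hR1 := F.ht i0
  have hsumr : ∀ i, ∑ p ∈ T i, (e * R i p).rank = r := fun i => by
    obtain ⟨A, C⟩ := G.exists_CR (F.ht i) he hVW hWV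
    exact C.sum_rank43
  have hsupp : ∀ i p, p ∉ T i → (e * R i p).rank = 0 := fun i p hp => by
    obtain ⟨A, C⟩ := G.exists_CR (F.ht i) he hVW hWV
    exact C.supp_rank43 hp
  obtain ⟨t, ht, hDch⟩ := dch_blkU G he hVW hWV hirr hr' hR1
    (indecU_two55 (S := T i0) (r := r) hr (hsupp i0) (hsumr i0) (hn i0).2.2.2)
  have hsm := F.smp43 H G he hVW hWV (by omega) ht hDch (Or.inl fun i =>
    noF_two55 (S := T i0) (S' := T i) hr (hsupp i0) (hsupp i) (hsumr i0) (hsumr i) ⟨1, (hn i0).2.2.2⟩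
      ⟨1, (hn i).2.2.2⟩ hns)
  obtain ⟨t', E, Λ, ht', hSD, hint, hEr⟩ := exists_sh43 G he hVW hWV hr' hR1
  have hEr1 := hEr 1
  have h1 := tyN_two43 hr (T0_br G he hVW hWV) (T0_irr hr' hirr) (fun X hX => (mem_T0.1 hX).2) hsm ht'
    (sh_ne43 G he hVW hWV hr' hR1 hns t') hSD (μ := ((1 : ℤ) : ℝ) - t') (by rw [hEr1]; exact (hn i0).2.2.2)
    (fun h2 => hD (F.form_low55 H G he hVW hWV hr hn0 (fun i => (hn i).2.2.2) h2))
  have h3 : ∀ X : Matrix (Fin r) (Fin r) ℂ, X.trace = 0 → X ∈ cpS W V (LG Γ) := fun X hX => (mem_T0.1 (h1 X hX)).1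
  exact ⟨Or.inl h3, Or.inl h3⟩

/-- the type of a block, for the Mumford-Tate group -/
theorem IsHW.tyBN_low55 {Q : Matrix n n ℚ} {P : ℤ → Matrix n n ℂ} (H : IsHW 2 Q S P)
    (hP : ∀ p, p ≠ 0 → p ≠ 1 → p ≠ 2 → P p = 0) (hg : (P 2).rank ≤ 2) (he : IsBlk P e) (h5 : 5 ≤ e.rank)
    (hD : ¬ DualB Q P e) : TyBN Q S P e := by
  obtain ⟨r, W, V, hVW, hWV⟩ := exists_coord48 he.idem
  have hre : e.rank = r := _root_.MH.blk_rank he hVW hWV
  have h1 := IsHF.tyN_low55 H hP hg H.isGalU_MT H.isHF43 (s := fun σ => σ) (fun σ => H.isHTs43 σ.symm) he hVW hWV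
    (by omega) hD
  rw [H.cpS_LG_MT hVW] at h1
  exact ⟨r, W, V, hVW, hWV, h1⟩

/-- the type of a block, for the Galois group -/
theorem IsGalG.tyN_low55 {Q : Matrix n n ℚ} {P : ℤ → Matrix n n ℂ} (H : IsHW 2 Q S P)
    (hP : ∀ p, p ≠ 0 → p ≠ 1 → p ≠ 2 → P p = 0) (hg : (P 2).rank ≤ 2) (G : IsGalG 2 Q S P Γ) (hT : IsTateN S P Γ)
    (he : IsBlk P e) (hVW : V * W = 1) (hWV : W * V = e) (hr : 5 ≤ r) (hD : ¬ DualB Q P e) : TyN (cpS W V (LG Γ)) :=
  IsHF.tyN_low55 H hP hg (G.toA.toN.toU H hT) (G.isHF43 H hT) (s := fun x => x.1.1) (fun x => x.2) he hVW hWV hr hD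

end MH
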