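import Pool.Agent.Helper43.GH.Bas
import Pool.Agent.Helper98.GH.One
import Pool.Agent.Helper98.PF.Core

/-!
Project BL (MP_b8862a_ag): simple irreducible self-adjoint Lie algebras of matrices, generation by the parts of nonzero
degree.
-/

set_option linter.unusedSectionVars false

open Matrix Module GH

namespace MH

variable {n : Type*} [Fintype n] [DecidableEq n]

/-- A simple irreducible Lie algebra of matrices of trace zero, closed under the adjoint. -/
structure SAl (L : Submodule ℂ (Matrix n n ℂ)) : Prop where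
  br : ∀ x ∈ L, ∀ y ∈ L, x * y - y * x ∈ L
  st : ∀ x ∈ L, xᴴ ∈ L
  tr : ∀ x ∈ L, x.trace = 0
  irr : ∀ T : Matrix n n ℂ, (∀ x ∈ L, T * x = x * T) → ∃ c : ℂ, T = c • (1 : Matrix n n ℂ)
  smp : Smp L

variable {L : Submodule ℂ (Matrix n n ℂ)} {h : Matrix n n ℂ} {E : ℝ → Matrix n n ℂ} {Λ : Finset ℝ}

namespace SAl

variable (A : SAl L)
include A

theorem gr (hS : Spec h E Λ) (hh : h ∈ L) : Gr L h E Λ := ⟨hS, A.br, A.st, hh⟩

/-- a scalar matrix in `L` vanishes -/
theorem scal {x : Matrix n n ℂ} (hx : x ∈ L) {c : ℂ} (hc : x = c • (1 : Matrix n n ℂ)) : x = 0 := by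
  have h1 := A.tr x hx
  rw [hc, Matrix.trace_smul, Matrix.trace_one, smul_eq_mul] at h1
  rcases mul_eq_zero.1 h1 with h2 | h2
  · rw [hc, h2, zero_smul]
  · have h3 : Fintype.card n = 0 := by exact_mod_cast h2
    have := Fintype.card_eq_zero_iff.1 h3
    ext i
    exact isEmptyElim i

/-- **the parts of nonzero degree have trivial commutant** -/
theorem nr (hS : Spec h E Λ) (hh : h ∈ L) (h0 : h ≠ 0) {T : Matrix n n ℂ}
    (hT : ∀ ν : ℝ, ν ≠ 0 → ∀ x ∈ Ld L h ν, T * x = x * T) : ∃ c : ℂ, T = c • (1 : Matrix n n ℂ) := by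
  have G := A.gr hS hh
  set C : Set (Matrix n n ℂ) := {T | ∀ ν : ℝ, ν ≠ 0 → ∀ x ∈ Ld L h ν, T * x = x * T} with hC
  have h1 : ∀ X ∈ L, ∀ T ∈ C, X * T - T * X ∈ C := by
    intro X hX
    refine G.induct (p := fun X => ∀ T ∈ C, X * T - T * X ∈ C) ?_ ?_ ?_ ?_ hX
    · intro X hX T hT ν hν x hx
      have e1 := hT ν hν x hx
      have e2 : X * x - x * X ∈ Ld L h ν := by
        have := G.br_Ld hX hx
        rwa [zero_add] at this
      have e3 := hT ν hν _ e2
      calc (X * T - T * X) * x = X * (T * x) - T * (X * x - x * X) - (T * x) * X := by noncomm_ring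
        _ = X * (x * T) - (X * x - x * X) * T - (x * T) * X := by rw [e1, e3]
        _ = x * (X * T - T * X) := by noncomm_ring
    · intro μ hμ X hX T hT
      have e1 := hT μ hμ X hX
      rw [e1, sub_self]
      intro ν _ x _
      rw [zero_mul, mul_zero]
    · intro T _ ν _ x _
      simp
    · intro X Y hX hY T hT ν hν x hx
      have e1 := hX T hT ν hν x hx
      have e2 := hY T hT ν hν x hx
      calc ((X + Y) * T - T * (X + Y)) * x = (X * T - T * X) * x + (Y * T - T * Y) * x := by noncomm_ring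
        _ = x * (X * T - T * X) + x * (Y * T - T * Y) := by rw [e1, e2]
        _ = x * ((X + Y) * T - T * (X + Y)) := by noncomm_ring
  let K : Submodule ℂ (Matrix n n ℂ) :=
    { carrier := {X | X ∈ L ∧ ∀ T ∈ C, T * X = X * T}
      add_mem' := by
        rintro X Y ⟨hX, hX'⟩ ⟨hY, hY'⟩
        exact ⟨L.add_mem hX hY, fun T hT => by rw [mul_add, add_mul, hX' T hT, hY' T hT]⟩
      zero_mem' := ⟨L.zero_mem, fun T _ => by rw [mul_zero, zero_mul]⟩
      smul_mem' := by
        rintro c X ⟨hX, hX'⟩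
        exact ⟨L.smul_mem c hX, fun T hT => by rw [mul_smul_comm, smul_mul_assoc, hX' T hT]⟩ }
  have hK : ∀ X, X ∈ K ↔ X ∈ L ∧ ∀ T ∈ C, T * X = X * T := fun X => Iff.rfl
  have hKd : ∀ ν : ℝ, ν ≠ 0 → ∀ x ∈ Ld L h ν, x ∈ K := fun ν hν x hx => ⟨hx.1, fun T hT => hT ν hν x hx⟩
  rcases A.smp K (fun X hX => hX.1) (by
    intro X hX Y hY
    refine ⟨A.br X hX Y hY.1, fun T hT => ?_⟩
    have e1 := hY.2 T hT
    have e2 := hY.2 _ (h1 X hX T hT)
    calc T * (X * Y - Y * X) = X * (T * Y) - (X * T - T * X) * Y - (T * Y) * X := by noncomm_ring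
      _ = X * (Y * T) - Y * (X * T - T * X) - (Y * T) * X := by rw [e1, e2]
      _ = (X * Y - Y * X) * T := by noncomm_ring) with h2 | h2
  · exfalso
    apply h0
    obtain ⟨c, hc⟩ := A.irr h (by
      intro x hx
      refine G.induct (p := fun x => h * x = x * h) ?_ ?_ (by simp) ?_ hx
      · intro x hx
        have e1 := hx.2
        rw [Complex.ofReal_zero, zero_smul] at e1
        exact sub_eq_zero.1 e1
      · intro ν hν x hx
        have e1 := hKd ν hν x hx
        rw [h2, Submodule.mem_bot] at e1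
        rw [e1, mul_zero, zero_mul]
      · intro x y hx hy
        rw [mul_add, add_mul, hx, hy])
    exact A.scal hh hc
  · refine A.irr T fun x hx => ?_
    rw [← h2] at hx
    exact hx.2 T hT

/-- subspaces stable under the parts of nonzero degree -/
theorem irrN (hS : Spec h E Λ) (hh : h ∈ L) (h0 : h ≠ 0) (W : Submodule ℂ (n → ℂ))
    (hW : ∀ ν : ℝ, ν ≠ 0 → ∀ x ∈ Ld L h ν, ∀ v ∈ W, x *ᵥ v ∈ W) : W = ⊥ ∨ W = ⊤ := by
  have G := A.gr hS hh
  obtain ⟨T, hTT, _, hTW, hTc⟩ := proj W
  obtain ⟨c, hc⟩ := A.nr hS hh h0 (T := T) (fun ν hν x hx => hTc x (hW ν hν x hx)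
    (hW (-ν) (neg_ne_zero.2 hν) _ (G.star_Ld hx)))
  by_cases hn : Nonempty n
  · obtain ⟨i⟩ := hn
    have e1 : c * c = c := by
      have e2 := congrFun (congrFun hTT i) i
      rw [hc] at e2
      simpa using e2
    rcases mul_eq_zero.1 (show c * (c - 1) = 0 by rw [mul_sub, e1, mul_one, sub_self]) with e2 | e2
    · left
      rw [eq_bot_iff]
      intro v hv
      rw [hTW, hc, e2, zero_smul, Matrix.zero_mulVec] at hv
      rw [Submodule.mem_bot]
      exact hv.symm
    · right
      rw [eq_top_iff]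
      intro v _
      rw [hTW, hc, sub_eq_zero.1 e2, one_smul, Matrix.one_mulVec]
  · left
    rw [not_nonempty_iff] at hn
    rw [eq_bot_iff]
    intro v _
    rw [Submodule.mem_bot]
    ext i
    exact isEmptyElim i

/-- a bilinear form that is invariant under the parts of nonzero degree is invariant -/
theorem form (hS : Spec h E Λ) (hh : h ∈ L) (h0 : h ≠ 0) {F : Matrix n n ℂ} (hF : F ≠ 0)
    (hN : ∀ ν : ℝ, ν ≠ 0 → ∀ x ∈ Ld L h ν, xᵀ * F + F * x = 0) : ∀ X ∈ L, Xᵀ * F + F * X = 0 := by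
  have G := A.gr hS hh
  have hN' : ∀ ν : ℝ, ν ≠ 0 → ∀ x ∈ Ld L h ν, F * x = -(xᵀ * F) := fun ν hν x hx =>
    eq_neg_of_add_eq_zero_right (hN ν hν x hx)
  -- the form is nondegenerate
  obtain ⟨Fi, hF1⟩ : ∃ Fi : Matrix n n ℂ, Fi * F = 1 := by
    let W : Submodule ℂ (n → ℂ) :=
      { carrier := {v | F *ᵥ v = 0}
        add_mem' := by
          intro a b ha hb
          change F *ᵥ (a + b) = 0
          rw [Matrix.mulVec_add, show F *ᵥ a = 0 from ha, show F *ᵥ b = 0 from hb, add_zero]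
        zero_mem' := Matrix.mulVec_zero F
        smul_mem' := by
          intro c a ha
          change F *ᵥ (c • a) = 0
          rw [Matrix.mulVec_smul, show F *ᵥ a = 0 from ha, smul_zero] }
    have hW : ∀ v, v ∈ W ↔ F *ᵥ v = 0 := fun v => Iff.rfl
    rcases A.irrN hS hh h0 W (by
      intro ν hν x hx v hv
      rw [hW] at hv ⊢
      rw [Matrix.mulVec_mulVec, hN' ν hν x hx, Matrix.neg_mulVec, ← Matrix.mulVec_mulVec, hv, Matrix.mulVec_zero,
        neg_zero]) with h1 | h1
    · have h2 : IsUnit F := by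
        rw [← Matrix.mulVec_injective_iff_isUnit]
        intro a b hab
        have h3 : a - b ∈ W := by
          rw [hW, Matrix.mulVec_sub, sub_eq_zero]
          exact hab
        rw [h1, Submodule.mem_bot, sub_eq_zero] at h3
        exact h3
      obtain ⟨U, rfl⟩ := h2
      exact ⟨_, U.inv_mul⟩
    · exfalso
      apply hF
      ext i j
      have h2 : (Pi.single j 1 : n → ℂ) ∈ W := by
        rw [h1]
        trivial
      rw [hW] at h2
      have h3 := congrFun h2 i
      simpa using h3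
  have hF2 : F * Fi = 1 := mul_eq_one_comm.1 hF1
  intro X hX
  refine G.induct (p := fun X => Xᵀ * F + F * X = 0) ?_ hN (by simp) ?_ hX
  · intro X hX
    set F' := Xᵀ * F + F * X with hF'
    have e0 : ∀ ν : ℝ, ν ≠ 0 → ∀ x ∈ Ld L h ν, F' * x = -(xᵀ * F') := by
      intro ν hν x hx
      have e1 : X * x - x * X ∈ Ld L h ν := by
        have := G.br_Ld hX hx
        rwa [zero_add] at this
      have e2 := hN' ν hν _ e1
      have e3 := hN' ν hν x hx
      have e4 : (X * x - x * X)ᵀ = xᵀ * Xᵀ - Xᵀ * xᵀ := by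
        rw [Matrix.transpose_sub, Matrix.transpose_mul, Matrix.transpose_mul]
      rw [e4] at e2
      calc F' * x = Xᵀ * (F * x) + F * (X * x - x * X) + (F * x) * X := by rw [hF']; noncomm_ring
        _ = Xᵀ * (-(xᵀ * F)) + -((xᵀ * Xᵀ - Xᵀ * xᵀ) * F) + (-(xᵀ * F)) * X := by rw [e2, e3]
        _ = -(xᵀ * F') := by rw [hF']; noncomm_ring
    obtain ⟨c, hc⟩ := A.nr hS hh h0 (T := Fi * F') (by
      intro ν hν x hx
      have e1 : Fi * xᵀ = -(x * Fi) := by
        calc Fi * xᵀ = Fi * (xᵀ * F) * Fi := by rw [mul_assoc, mul_assoc, hF2, mul_one]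
          _ = -(Fi * (F * x) * Fi) := by rw [hN' ν hν x hx]; noncomm_ring
          _ = -(x * Fi) := by rw [← mul_assoc Fi F x, hF1, one_mul]
      calc Fi * F' * x = -(Fi * xᵀ * F') := by rw [mul_assoc, e0 ν hν x hx, mul_neg, mul_assoc]
        _ = x * (Fi * F') := by rw [e1, neg_mul, neg_neg, mul_assoc])
    have h1 : F' = c • F := by
      calc F' = F * (Fi * F') := by rw [← mul_assoc, hF2, one_mul]
        _ = c • F := by rw [hc, mul_smul_comm, mul_one]
    have h2 : (Fi * F').trace = 0 := by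
      have h3 : Fi * F' = Fi * (Xᵀ * F) + X := by
        rw [hF', mul_add, ← mul_assoc Fi F X, hF1, one_mul]
      rw [h3, Matrix.trace_add, Matrix.trace_mul_comm, mul_assoc, hF2, mul_one, Matrix.trace_transpose,
        A.tr X hX.1, add_zero]
    have h3 : Fi * F' = 0 := by
      rw [hc, Matrix.trace_smul, Matrix.trace_one, smul_eq_mul] at h2
      rcases mul_eq_zero.1 h2 with h4 | h4
      · rw [hc, h4, zero_smul]
      · have h5 : Fintype.card n = 0 := by exact_mod_cast h4
        have := Fintype.card_eq_zero_iff.1 h5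
        ext i
        exact isEmptyElim i
    calc F' = F * (Fi * F') := by rw [← mul_assoc, hF2, one_mul]
      _ = 0 := by rw [h3, mul_zero]
  · intro x y hx hy
    rw [Matrix.transpose_add, add_mul, mul_add]
    calc xᵀ * F + yᵀ * F + (F * x + F * y) = (xᵀ * F + F * x) + (yᵀ * F + F * y) := by abel
      _ = 0 := by rw [hx, hy, add_zero]

end SAl

end MH
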