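import Pool.Agent.Helper55.BL2.Gen

/-!
Project BL (MP_b8862a_ag): the grading of a simple irreducible self-adjoint Lie algebra of matrices by
`u u* - w w*`.
-/

set_option linter.unusedSectionVars false
set_option linter.unusedSimpArgs false

open Matrix Module GH

namespace MH

variable {n : Type*} [Fintype n] [DecidableEq n]

/-- the scalar product -/
def ip (a b : n → ℂ) : ℂ := star a ⬝ᵥ b

/-- the matrix `a b*` -/
def ro (a b : n → ℂ) : Matrix n n ℂ := vecMulVec a (star b)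

theorem ip_add_left (a b c : n → ℂ) : ip (a + b) c = ip a c + ip b c := by
  rw [ip, star_add, add_dotProduct]
  rfl

theorem ip_add_right (a b c : n → ℂ) : ip a (b + c) = ip a b + ip a c := dotProduct_add _ _ _

theorem ip_sub_left (a b c : n → ℂ) : ip (a - b) c = ip a c - ip b c := by
  rw [ip, star_sub, sub_dotProduct]
  rfl

theorem ip_sub_right (a b c : n → ℂ) : ip a (b - c) = ip a b - ip a c := dotProduct_sub _ _ _

theorem ip_smul_left (t : ℂ) (a b : n → ℂ) : ip (t • a) b = star t * ip a b := by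
  rw [ip, star_smul, smul_dotProduct, smul_eq_mul]
  rfl

theorem ip_smul_right (t : ℂ) (a b : n → ℂ) : ip a (t • b) = t * ip a b := by
  rw [ip, dotProduct_smul, smul_eq_mul]
  rfl

theorem ip_neg_left (a b : n → ℂ) : ip (-a) b = -ip a b := by
  rw [ip, star_neg, neg_dotProduct]
  rfl

theorem ip_neg_right (a b : n → ℂ) : ip a (-b) = -ip a b := by
  rw [ip, dotProduct_neg]
  rfl

theorem ip_zero_left (a : n → ℂ) : ip 0 a = 0 := by
  rw [ip, star_zero, zero_dotProduct]

theorem ip_zero_right (a : n → ℂ) : ip a 0 = 0 := dotProduct_zero _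

theorem ip_star (a b : n → ℂ) : star (ip a b) = ip b a := by
  unfold ip
  rw [← Matrix.star_dotProduct_star, star_star]

theorem ip_swap {a b : n → ℂ} (h : ip a b = 0) : ip b a = 0 := by
  rw [← ip_star, h, star_zero]

theorem ip_self (a : n → ℂ) : ip a a = ((∑ i, ‖a i‖ ^ 2 : ℝ) : ℂ) := by
  unfold ip
  rw [dotProduct]
  push_cast
  refine Finset.sum_congr rfl fun i _ => ?_
  rw [Pi.star_apply, Complex.star_def, ← Complex.normSq_eq_conj_mul_self, Complex.normSq_eq_norm_sq]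
  push_cast
  rfl

theorem ip_self_ne {a : n → ℂ} (ha : a ≠ 0) : ip a a ≠ 0 := by
  rw [ip_self]
  obtain ⟨i, hi⟩ : ∃ i, a i ≠ 0 := by
    by_contra hc
    push Not at hc
    exact ha (funext hc)
  have h1 : 0 < ∑ i, ‖a i‖ ^ 2 := Finset.sum_pos' (fun i _ => by positivity)
    ⟨i, Finset.mem_univ _, by have := norm_pos_iff.2 hi; positivity⟩
  exact_mod_cast h1.ne'

theorem eq_zero_of_ip {a : n → ℂ} (h : ip a a = 0) : a = 0 := by
  by_contra hc
  exact ip_self_ne hc h

/-- a multiple of a nonzero vector has length one -/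
theorem exists_unit {a : n → ℂ} (ha : a ≠ 0) : ∃ t : ℂ, t ≠ 0 ∧ ip (t • a) (t • a) = 1 := by
  have h1 := ip_self_ne ha
  rw [ip_self] at h1
  set r : ℝ := ∑ i, ‖a i‖ ^ 2 with hr
  have hr0 : 0 ≤ r := Finset.sum_nonneg fun i _ => by positivity
  have hr1 : r ≠ 0 := by
    intro h2
    apply h1
    rw [h2, Complex.ofReal_zero]
  have hs : Real.sqrt r ≠ 0 := by
    rw [Ne, Real.sqrt_eq_zero hr0]
    exact hr1
  refine ⟨(((Real.sqrt r)⁻¹ : ℝ) : ℂ), by exact_mod_cast inv_ne_zero hs, ?_⟩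
  rw [ip_smul_left, ip_smul_right, ip_self, ← hr, Complex.star_def, Complex.conj_ofReal, ← Complex.ofReal_mul,
    ← Complex.ofReal_mul]
  have h2 : (Real.sqrt r)⁻¹ * ((Real.sqrt r)⁻¹ * r) = 1 := by
    have h3 : r = Real.sqrt r * Real.sqrt r := (Real.mul_self_sqrt hr0).symm
    calc (Real.sqrt r)⁻¹ * ((Real.sqrt r)⁻¹ * r) = (Real.sqrt r)⁻¹ * ((Real.sqrt r)⁻¹ *
          (Real.sqrt r * Real.sqrt r)) := by rw [← h3]
      _ = 1 := by field_simp
  rw [h2, Complex.ofReal_one]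

theorem ro_mul (a b c d : n → ℂ) : ro a b * ro c d = ip b c • ro a d := by
  unfold ro ip
  rw [Matrix.vecMulVec_mul_vecMulVec, Matrix.vecMulVec_smul]

theorem ro_star (a b : n → ℂ) : (ro a b)ᴴ = ro b a := by
  unfold ro
  rw [Matrix.conjTranspose_vecMulVec, star_star]

theorem ro_mulVec (a b v : n → ℂ) : ro a b *ᵥ v = ip b v • a := by
  unfold ro ip
  rw [Matrix.vecMulVec_mulVec]
  ext i
  simp [mul_comm]

theorem mul_ro (M : Matrix n n ℂ) (a b : n → ℂ) : M * ro a b = ro (M *ᵥ a) b := by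
  unfold ro
  rw [Matrix.mul_vecMulVec]

theorem ro_mul' (M : Matrix n n ℂ) (a b : n → ℂ) : ro a b * M = ro a (Mᴴ *ᵥ b) := by
  unfold ro
  rw [Matrix.vecMulVec_mul, Matrix.star_mulVec, conjTranspose_conjTranspose]

theorem ro_trace (a b : n → ℂ) : (ro a b).trace = ip b a := by
  unfold ro ip
  rw [Matrix.trace_vecMulVec, dotProduct_comm]

theorem ro_add_left (a b c : n → ℂ) : ro (a + b) c = ro a c + ro b c := Matrix.add_vecMulVec _ _ _

theorem ro_add_right (a b c : n → ℂ) : ro a (b + c) = ro a b + ro a c := by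
  unfold ro
  rw [star_add, Matrix.vecMulVec_add]

theorem ro_smul_left (t : ℂ) (a b : n → ℂ) : ro (t • a) b = t • ro a b := Matrix.smul_vecMulVec _ _ _

theorem ro_smul_right (t : ℂ) (a b : n → ℂ) : ro a (t • b) = star t • ro a b := by
  unfold ro
  rw [star_smul, Matrix.vecMulVec_smul]

theorem ro_neg_left (a b : n → ℂ) : ro (-a) b = -ro a b := by
  rw [← neg_one_smul ℂ a, ro_smul_left, neg_one_smul]

theorem ro_neg_right (a b : n → ℂ) : ro a (-b) = -ro a b := by
  rw [← neg_one_smul ℂ b, ro_smul_right, star_neg, star_one, neg_one_smul]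

theorem ro_sub_left (a b c : n → ℂ) : ro (a - b) c = ro a c - ro b c := by
  rw [sub_eq_add_neg, ro_add_left, ro_neg_left, ← sub_eq_add_neg]

theorem ro_sub_right (a b c : n → ℂ) : ro a (b - c) = ro a b - ro a c := by
  rw [sub_eq_add_neg, ro_add_right, ro_neg_right, ← sub_eq_add_neg]

theorem ro_zero_left (a : n → ℂ) : ro 0 a = 0 := by
  unfold ro
  rw [Matrix.zero_vecMulVec]

theorem ro_zero_right (a : n → ℂ) : ro a 0 = 0 := by
  unfold ro
  rw [star_zero, Matrix.vecMulVec_zero]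

/-- `u`, `w` are orthonormal. -/
structure On (u w : n → ℂ) : Prop where
  uu : ip u u = 1
  ww : ip w w = 1
  uw : ip u w = 0

theorem On.wu {u w : n → ℂ} (O : On u w) : ip w u = 0 := ip_swap O.uw

/-- The vectors orthogonal to `u` and `w`. -/
def V0 (u w a : n → ℂ) : Prop := ip u a = 0 ∧ ip w a = 0

/-- The part of degree one. -/
def LL (L : Submodule ℂ (Matrix n n ℂ)) (u w a b : n → ℂ) : Prop :=
  V0 u w a ∧ V0 u w b ∧ ro u a + ro b w ∈ L

variable {L : Submodule ℂ (Matrix n n ℂ)} {u w : n → ℂ}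

theorem V0.add {a b : n → ℂ} (ha : V0 u w a) (hb : V0 u w b) : V0 u w (a + b) :=
  ⟨by rw [ip_add_right, ha.1, hb.1, add_zero], by rw [ip_add_right, ha.2, hb.2, add_zero]⟩

theorem V0.smul {a : n → ℂ} (ha : V0 u w a) (c : ℂ) : V0 u w (c • a) :=
  ⟨by rw [ip_smul_right, ha.1, mul_zero], by rw [ip_smul_right, ha.2, mul_zero]⟩

theorem V0.zero : V0 u w 0 := ⟨ip_zero_right _, ip_zero_right _⟩

theorem V0.neg {a : n → ℂ} (ha : V0 u w a) : V0 u w (-a) := by
  rw [← neg_one_smul ℂ a]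
  exact ha.smul _

theorem V0.sub {a b : n → ℂ} (ha : V0 u w a) (hb : V0 u w b) : V0 u w (a - b) := by
  rw [sub_eq_add_neg]
  exact ha.add hb.neg

theorem LL.add {a b a' b' : n → ℂ} (h : LL L u w a b) (h' : LL L u w a' b') : LL L u w (a + a') (b + b') := by
  refine ⟨h.1.add h'.1, h.2.1.add h'.2.1, ?_⟩
  have h1 := L.add_mem h.2.2 h'.2.2
  rw [ro_add_left, ro_add_right]
  convert h1 using 1
  abel

theorem LL.smul {a b : n → ℂ} (h : LL L u w a b) (c : ℂ) : LL L u w (star c • a) (c • b) := by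
  refine ⟨h.1.smul _, h.2.1.smul _, ?_⟩
  have h1 := L.smul_mem c h.2.2
  rwa [smul_add, ← ro_smul_left c b, ← star_star c, ← ro_smul_right, star_star] at h1

theorem LL.zero : LL L u w 0 0 :=
  ⟨V0.zero, V0.zero, by rw [ro_zero_left, ro_zero_right, add_zero]; exact L.zero_mem⟩

theorem LL.neg {a b : n → ℂ} (h : LL L u w a b) : LL L u w (-a) (-b) := by
  have := h.smul (-1)
  rwa [star_neg, star_one, neg_one_smul, neg_one_smul] at this

theorem LL.sub {a b a' b' : n → ℂ} (h : LL L u w a b) (h' : LL L u w a' b') : LL L u w (a - a') (b - b') := by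
  rw [sub_eq_add_neg, sub_eq_add_neg]
  exact h.add h'.neg

/-- **the triple product** -/
theorem LL.triple (O : On u w) (br : ∀ x ∈ L, ∀ y ∈ L, x * y - y * x ∈ L) (st : ∀ x ∈ L, xᴴ ∈ L)
    {a b c d a' b' : n → ℂ} (h1 : LL L u w a b) (h2 : LL L u w c d) (h3 : LL L u w a' b') :
    LL L u w (ip c a • a' - ip b a' • d + ip c a' • a) (ip d b' • b - ip a b' • c + ip d b • b') := by
  refine ⟨((h3.1.smul _).sub (h2.2.1.smul _)).add (h1.1.smul _),
    ((h1.2.1.smul _).sub (h2.1.smul _)).add (h3.2.1.smul _), ?_⟩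
  have h4 := br _ (br _ h1.2.2 _ (st _ h2.2.2)) _ h3.2.2
  have e1 : (ro u c + ro d w)ᴴ = ro c u + ro w d := by
    rw [conjTranspose_add, ro_star, ro_star]
  rw [e1] at h4
  obtain ⟨⟨p1, p2⟩, ⟨p3, p4⟩, -⟩ := h1
  obtain ⟨⟨q1, q2⟩, ⟨q3, q4⟩, -⟩ := h2
  obtain ⟨⟨r1, r2⟩, ⟨r3, r4⟩, -⟩ := h3
  have p1' := ip_swap p1
  have p2' := ip_swap p2
  have p3' := ip_swap p3
  have p4' := ip_swap p4
  have q1' := ip_swap q1
  have q2' := ip_swap q2
  have q3' := ip_swap q3
  have q4' := ip_swap q4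
  have r1' := ip_swap r1
  have r2' := ip_swap r2
  have r3' := ip_swap r3
  have r4' := ip_swap r4
  have s1 := O.uu
  have s2 := O.ww
  have s3 := O.uw
  have s4 := O.wu
  convert h4 using 1
  simp only [ro_add_left, ro_sub_left, ro_add_right, ro_sub_right, ro_smul_left, ro_smul_right, ip_star, add_mul,
    mul_add, sub_mul, mul_sub, ro_mul, smul_mul_assoc, mul_smul_comm, p1, p2, p3, p4, q1, q2, q3, q4, r1, r2, r3,
    r4, p1', p2', p3', p4', q1', q2', q3', q4', r1', r2', r3', r4', s1, s2, s3, s4, zero_smul, smul_zero, one_smul,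
    add_zero, zero_add, sub_zero, zero_sub]
  abel

/-- the spectral projections of `u u* - w w*` -/
noncomputable def EH (u w : n → ℂ) (μ : ℝ) : Matrix n n ℂ :=
  if μ = 1 then ro u u else if μ = -1 then ro w w else if μ = 0 then 1 - ro u u - ro w w else 0

theorem EH_one (u w : n → ℂ) : EH u w 1 = ro u u := by
  rw [EH, if_pos rfl]

theorem EH_neg (u w : n → ℂ) : EH u w (-1) = ro w w := by
  rw [EH, if_neg (by norm_num), if_pos rfl]

theorem EH_zero (u w : n → ℂ) : EH u w 0 = 1 - ro u u - ro w w := by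
  rw [EH, if_neg (by norm_num), if_neg (by norm_num), if_pos rfl]

theorem EH_else (u w : n → ℂ) {μ : ℝ} (h1 : μ ≠ 1) (h2 : μ ≠ -1) (h3 : μ ≠ 0) : EH u w μ = 0 := by
  rw [EH, if_neg h1, if_neg h2, if_neg h3]

theorem On.spec (O : On u w) : Spec (ro u u - ro w w) (EH u w) {1, -1, 0} := by
  have k1 : ro u u * ro u u = ro u u := by rw [ro_mul, O.uu, one_smul]
  have k2 : ro w w * ro w w = ro w w := by rw [ro_mul, O.ww, one_smul]
  have k3 : ro u u * ro w w = 0 := by rw [ro_mul, O.uw, zero_smul]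
  have k4 : ro w w * ro u u = 0 := by rw [ro_mul, O.wu, zero_smul]
  have hs : ∀ f : ℝ → Matrix n n ℂ, ∑ μ ∈ ({1, -1, 0} : Finset ℝ), f μ = f 1 + f (-1) + f 0 := by
    intro f
    rw [Finset.sum_insert, Finset.sum_insert, Finset.sum_singleton, add_assoc]
    · norm_num
    · norm_num
  have hc : ∀ μ : ℝ, μ = 1 ∨ μ = -1 ∨ μ = 0 ∨ (μ ≠ 1 ∧ μ ≠ -1 ∧ μ ≠ 0) := by
    intro μ
    by_cases h1 : μ = 1
    · exact Or.inl h1
    by_cases h2 : μ = -1
    · exact Or.inr (Or.inl h2)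
    by_cases h3 : μ = 0
    · exact Or.inr (Or.inr (Or.inl h3))
    · exact Or.inr (Or.inr (Or.inr ⟨h1, h2, h3⟩))
  refine ⟨?_, ?_, ?_, ?_, ?_⟩
  · intro μ
    rcases hc μ with rfl | rfl | rfl | ⟨h1, h2, h3⟩
    · rw [EH_one, ro_star]
    · rw [EH_neg, ro_star]
    · rw [EH_zero, conjTranspose_sub, conjTranspose_sub, conjTranspose_one, ro_star, ro_star]
    · rw [EH_else u w h1 h2 h3, conjTranspose_zero]
  · intro μ ν
    rcases hc μ with rfl | rfl | rfl | ⟨h1, h2, h3⟩
    · rcases hc ν with rfl | rfl | rfl | ⟨h1, h2, h3⟩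
      · rw [if_pos rfl, EH_one, k1]
      · rw [if_neg (by norm_num), EH_one, EH_neg, k3]
      · rw [if_neg (by norm_num), EH_one, EH_zero, mul_sub, mul_sub, mul_one, k1, k3, sub_self, sub_zero]
      · rw [if_neg (Ne.symm h1), EH_else u w h1 h2 h3, mul_zero]
    · rcases hc ν with rfl | rfl | rfl | ⟨h1, h2, h3⟩
      · rw [if_neg (by norm_num), EH_one, EH_neg, k4]
      · rw [if_pos rfl, EH_neg, k2]
      · rw [if_neg (by norm_num), EH_neg, EH_zero, mul_sub, mul_sub, mul_one, k2, k4, sub_zero, sub_self]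
      · rw [if_neg (Ne.symm h2), EH_else u w h1 h2 h3, mul_zero]
    · rcases hc ν with rfl | rfl | rfl | ⟨h1, h2, h3⟩
      · rw [if_neg (by norm_num), EH_one, EH_zero, sub_mul, sub_mul, one_mul, k1, k4, sub_self, sub_zero]
      · rw [if_neg (by norm_num), EH_neg, EH_zero, sub_mul, sub_mul, one_mul, k2, k3, sub_zero, sub_self]
      · rw [if_pos rfl, EH_zero, mul_sub, mul_sub, mul_one, sub_mul, sub_mul, one_mul, k1, k4, sub_mul, sub_mul,
          one_mul, k2, k3]
        abel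
      · rw [if_neg (Ne.symm h3), EH_else u w h1 h2 h3, mul_zero]
    · rw [EH_else u w h1 h2 h3, zero_mul]
      split_ifs <;> rfl
  · intro μ hμ
    simp only [Finset.mem_insert, Finset.mem_singleton, not_or] at hμ
    exact EH_else u w hμ.1 hμ.2.1 hμ.2.2
  · rw [hs, EH_one, EH_neg, EH_zero]
    abel
  · rw [hs, EH_one, EH_neg, EH_zero]
    simp [sub_eq_add_neg]

theorem On.ne_zero (O : On u w) : ro u u - ro w w ≠ 0 := by
  intro h
  have h1 := congrArg (fun M : Matrix n n ℂ => M *ᵥ u) h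
  simp only [Matrix.sub_mulVec, ro_mulVec, O.uu, O.wu, one_smul, zero_smul, sub_zero, Matrix.zero_mulVec] at h1
  have h2 := O.uu
  rw [h1, ip_zero_left] at h2
  exact zero_ne_one h2

/-- the elements of positive degree -/
theorem SAl.deg_pos (A : SAl L) (O : On u w) (hH : ro u u - ro w w ∈ L) {ν : ℝ} (hν : 0 < ν) {x : Matrix n n ℂ}
    (hx : x ∈ Ld L (ro u u - ro w w) ν) : (∃ a b, LL L u w a b ∧ x = ro u a + ro b w) ∨ ∃ c : ℂ, x = c • ro u w := by
  have S := O.spec
  have G := A.gr S hH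
  have k1 := G.Ld_mul_E hx 1
  have k2 := G.Ld_mul_E hx (-1)
  have k3 := G.Ld_mul_E hx 0
  have hs : x = x * EH u w 1 + x * EH u w (-1) + x * EH u w 0 := by
    rw [EH_one, EH_neg, EH_zero]
    noncomm_ring
  rw [EH_else u w (μ := 1 + ν) (by linarith) (by linarith) (by linarith), zero_mul, zero_mul] at k1
  by_cases h1 : ν = 1
  · left
    subst h1
    rw [show (-1 : ℝ) + 1 = 0 by norm_num] at k2
    rw [zero_add] at k3
    rw [k1, k2, k3, zero_add, EH_zero, EH_one, EH_neg] at hs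
    set z : Matrix n n ℂ := 1 - ro u u - ro w w with hz
    have hzz : zᴴ = z := by
      rw [hz, conjTranspose_sub, conjTranspose_sub, conjTranspose_one, ro_star, ro_star]
    have hzv : ∀ v, V0 u w (z *ᵥ v) := by
      intro v
      have e1 : z *ᵥ v = v - ip u v • u - ip w v • w := by
        rw [hz, Matrix.sub_mulVec, Matrix.sub_mulVec, Matrix.one_mulVec, ro_mulVec, ro_mulVec]
      rw [e1]
      constructor
      · rw [ip_sub_right, ip_sub_right, ip_smul_right, ip_smul_right, O.uu, O.uw]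
        ring
      · rw [ip_sub_right, ip_sub_right, ip_smul_right, ip_smul_right, O.ww, O.wu]
        ring
    have hs2 : x = ro u (z *ᵥ (xᴴ *ᵥ u)) + ro (z *ᵥ (x *ᵥ w)) w := by
      conv_lhs => rw [hs]
      rw [mul_assoc z x, mul_ro, mul_ro, mul_assoc, ro_mul', conjTranspose_mul, hzz, ← Matrix.mulVec_mulVec]
      exact add_comm _ _
    refine ⟨z *ᵥ (xᴴ *ᵥ u), z *ᵥ (x *ᵥ w), ⟨hzv _, hzv _, ?_⟩, hs2⟩
    rw [← hs2]
    exact hx.1
  · right
    rw [EH_else u w (μ := 0 + ν) (by rw [zero_add]; exact h1) (by linarith) (by linarith), zero_mul, zero_mul] at k3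
    rw [k1, k3, zero_add, add_zero] at hs
    by_cases h2 : ν = 2
    · subst h2
      rw [show (-1 : ℝ) + 2 = 1 by norm_num, EH_one, EH_neg] at k2
      refine ⟨ip u (x *ᵥ w), ?_⟩
      conv_lhs => rw [hs]
      rw [EH_neg, k2, mul_assoc, mul_ro, ro_mul]
    · rw [EH_else u w (μ := -1 + ν) (by intro h3; apply h2; linarith) (by linarith)
        (by intro h3; apply h1; linarith), zero_mul, zero_mul] at k2
      exact ⟨0, by rw [zero_smul, hs, k2]⟩

/-- **the elements of nonzero degree** -/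
theorem SAl.deg (A : SAl L) (O : On u w) (hH : ro u u - ro w w ∈ L) {p : Matrix n n ℂ → Prop}
    (p1 : ∀ a b, LL L u w a b → p (ro u a + ro b w)) (p2 : ∀ a b, LL L u w a b → p (ro a u + ro w b))
    (p3 : ∀ c : ℂ, c • ro u w ∈ L → p (c • ro u w)) (p4 : ∀ c : ℂ, c • ro u w ∈ L → p (star c • ro w u))
    (ν : ℝ) (hν : ν ≠ 0) (x : Matrix n n ℂ) (hx : x ∈ Ld L (ro u u - ro w w) ν) : p x := by
  have S := O.spec
  have G := A.gr S hH
  rcases lt_or_gt_of_ne hν with h1 | h1
  · have h2 := G.star_Ld hx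
    have h3 := A.deg_pos O hH (neg_pos.2 h1) h2
    have h4 : x = (xᴴ)ᴴ := (conjTranspose_conjTranspose x).symm
    rcases h3 with ⟨a, b, hab, h3⟩ | ⟨c, h3⟩
    · rw [h4, h3, conjTranspose_add, ro_star, ro_star]
      exact p2 a b hab
    · rw [h4, h3, conjTranspose_smul, ro_star]
      refine p4 c ?_
      rw [← h3]
      exact h2.1
  · rcases A.deg_pos O hH h1 hx with ⟨a, b, hab, h3⟩ | ⟨c, h3⟩
    · rw [h3]
      exact p1 a b hab
    · rw [h3]
      refine p3 c ?_
      rw [← h3]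
      exact hx.1

/-- a subspace stable under the elements of degree one, two and their adjoints -/
theorem SAl.irr1 (A : SAl L) (O : On u w) (hH : ro u u - ro w w ∈ L) (W : Submodule ℂ (n → ℂ))
    (h1 : ∀ a b, LL L u w a b → ∀ v ∈ W, ip a v • u + ip w v • b ∈ W)
    (h2 : ∀ a b, LL L u w a b → ∀ v ∈ W, ip u v • a + ip b v • w ∈ W)
    (h3 : ro u w ∈ L → ∀ v ∈ W, ip w v • u ∈ W ∧ ip u v • w ∈ W) : W = ⊥ ∨ W = ⊤ := by
  have h3' : ∀ c : ℂ, c ≠ 0 → c • ro u w ∈ L → ro u w ∈ L := by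
    intro c hc h
    have h4 := L.smul_mem c⁻¹ h
    rwa [smul_smul, inv_mul_cancel₀ hc, one_smul] at h4
  refine A.irrN O.spec hH O.ne_zero W (A.deg O hH (p := fun x => ∀ v ∈ W, x *ᵥ v ∈ W) ?_ ?_ ?_ ?_)
  · intro a b hab v hv
    rw [Matrix.add_mulVec, ro_mulVec, ro_mulVec]
    exact h1 a b hab v hv
  · intro a b hab v hv
    rw [Matrix.add_mulVec, ro_mulVec, ro_mulVec]
    exact h2 a b hab v hv
  · intro c hc v hv
    by_cases h0 : c = 0
    · rw [h0, zero_smul, Matrix.zero_mulVec]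
      exact W.zero_mem
    · rw [Matrix.smul_mulVec, ro_mulVec]
      exact W.smul_mem _ (h3 (h3' c h0 hc) v hv).1
  · intro c hc v hv
    by_cases h0 : c = 0
    · rw [h0, star_zero, zero_smul, Matrix.zero_mulVec]
      exact W.zero_mem
    · rw [Matrix.smul_mulVec, ro_mulVec]
      exact W.smul_mem _ (h3 (h3' c h0 hc) v hv).2

/-- the projection onto the orthogonal complement of `u` and `w` -/
def pz (u w v : n → ℂ) : n → ℂ := v - ip u v • u - ip w v • w

theorem pz_V0 (O : On u w) (v : n → ℂ) : V0 u w (pz u w v) := by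
  constructor
  · rw [pz, ip_sub_right, ip_sub_right, ip_smul_right, ip_smul_right, O.uu, O.uw]
    ring
  · rw [pz, ip_sub_right, ip_sub_right, ip_smul_right, ip_smul_right, O.ww, O.wu]
    ring

theorem pz_of (v : n → ℂ) (hv : V0 u w v) : pz u w v = v := by
  rw [pz, hv.1, hv.2, zero_smul, zero_smul, sub_zero, sub_zero]

theorem pz_add (v v' : n → ℂ) : pz u w (v + v') = pz u w v + pz u w v' := by
  rw [pz, pz, pz, ip_add_right, ip_add_right, add_smul, add_smul]
  abel

theorem pz_smul (c : ℂ) (v : n → ℂ) : pz u w (c • v) = c • pz u w v := by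
  rw [pz, pz, ip_smul_right, ip_smul_right, smul_sub, smul_sub, smul_smul, smul_smul]

theorem pz_u (O : On u w) : pz u w u = 0 := by
  rw [pz, O.uu, O.wu, one_smul, zero_smul, sub_self, sub_zero]

theorem pz_w (O : On u w) : pz u w w = 0 := by
  rw [pz, O.uw, O.ww, one_smul, zero_smul, sub_zero, sub_self]

theorem pz_decomp (v : n → ℂ) : v = pz u w v + ip u v • u + ip w v • w := by
  rw [pz]
  abel

end MH
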