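import Pool.Agent.Helper55.BL2.Pr

/-!
Project BL (MP_b8862a_ag): a simple irreducible self-adjoint Lie algebra of matrices that contains `u w*` or
`u u* - w w*`, `u`, `w` orthonormal, size at least five: it is `sl`, or it preserves a form.
-/

set_option linter.unusedSectionVars false
set_option linter.unusedSimpArgs false

open Matrix Module GH

namespace MH

variable {n : Type*} [Fintype n] [DecidableEq n]
variable {L : Submodule ℂ (Matrix n n ℂ)} {u w : n → ℂ}

/-- four linear conditions -/
theorem exists_four (hn : 5 ≤ Fintype.card n) (p q r s : n → ℂ) :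
    ∃ d : n → ℂ, d ≠ 0 ∧ ip p d = 0 ∧ ip q d = 0 ∧ ip r d = 0 ∧ ip s d = 0 := by
  let f : (n → ℂ) →ₗ[ℂ] (Fin 4 → ℂ) :=
    { toFun := fun d => ![ip p d, ip q d, ip r d, ip s d]
      map_add' := by
        intro a b
        funext i
        fin_cases i <;> simp [ip_add_right]
      map_smul' := by
        intro c a
        funext i
        fin_cases i <;> simp [ip_smul_right] }
  have h1 : LinearMap.ker f ≠ ⊥ := by
    apply LinearMap.ker_ne_bot_of_finrank_lt
    rw [Module.finrank_fin_fun, Module.finrank_pi]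
    omega
  obtain ⟨d, hd, hd0⟩ := Submodule.exists_mem_ne_zero_of_ne_bot h1
  rw [LinearMap.mem_ker] at hd
  have h2 : ![ip p d, ip q d, ip r d, ip s d] = 0 := hd
  refine ⟨d, hd0, ?_, ?_, ?_, ?_⟩
  · simpa using congrFun h2 0
  · simpa using congrFun h2 1
  · simpa using congrFun h2 2
  · simpa using congrFun h2 3

/-- a matrix whose bilinear form vanishes -/
theorem ext_bil {M : Matrix n n ℂ} (h : ∀ v v' : n → ℂ, v ⬝ᵥ (M *ᵥ v') = 0) : M = 0 := by
  ext i j
  have h1 := h (Pi.single i 1) (Pi.single j 1)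
  simpa using h1

theorem vv_bil (a b v v' : n → ℂ) : v ⬝ᵥ (vecMulVec (star a) (star b) *ᵥ v') = ip a v * ip b v' := by
  have h1 : vecMulVec (star a) (star b) = ro (star a) b := rfl
  rw [h1, ro_mulVec, dotProduct_smul, smul_eq_mul, dotProduct_comm, mul_comm]
  rfl

/-- **the invariant form of a graph** -/
theorem SAl.form1 (A : SAl L) (O : On u w) (hH : ro u u - ro w w ∈ L) {η : ℂ} (hη : η ≠ 0) (hs : star η = η)
    (ex : ∀ v, V0 u w v → ∃ a, LL L u w a v) (uq : ∀ a, LL L u w a 0 → a = 0)
    (c1 : ∀ a b a' b', LL L u w a b → LL L u w a' b' → η * ip a b' + ip a' b = 0)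
    (c2 : ∀ a b, LL L u w a b → LL L u w (-η • b) a)
    (c3 : ∀ a b c d, LL L u w a b → LL L u w c d → ip c a = ip b d) (h2 : ro u w ∈ L → η = 1) :
    ∃ F : Matrix n n ℂ, F ≠ 0 ∧ ∀ X ∈ L, Xᵀ * F + F * X = 0 := by
  have uq' : ∀ a a' b, LL L u w a b → LL L u w a' b → a = a' := by
    intro a a' b h h'
    have h3 := h.sub h'
    rw [sub_self] at h3
    exact sub_eq_zero.1 (uq _ h3)
  choose f hf using fun v => ex (pz u w v) (pz_V0 O v)
  have fadd : ∀ v v', f (v + v') = f v + f v' := by
    intro v v'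
    refine uq' _ _ _ (hf (v + v')) ?_
    rw [pz_add]
    exact (hf v).add (hf v')
  have fsmul : ∀ (c : ℂ) v, f (c • v) = star c • f v := by
    intro c v
    refine uq' _ _ _ (hf (c • v)) ?_
    rw [pz_smul]
    exact (hf v).smul c
  have fu : f u = 0 := by
    refine uq _ ?_
    have := hf u
    rwa [pz_u O] at this
  have fw : f w = 0 := by
    refine uq _ ?_
    have := hf w
    rwa [pz_w O] at this
  have fb : ∀ a b, LL L u w a b → f b = a := by
    intro a b h
    refine uq' _ _ _ (hf b) ?_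
    rw [pz_of b h.2.1]
    exact h
  have fV : ∀ v, V0 u w (f v) := fun v => (hf v).1
  let Gl : (n → ℂ) →ₗ[ℂ] (n → ℂ) :=
    { toFun := fun v => star (f v)
      map_add' := by
        intro v v'
        rw [fadd, star_add]
      map_smul' := by
        intro c v
        rw [fsmul, star_smul, star_star]
        rfl }
  set M : Matrix n n ℂ := LinearMap.toMatrix' Gl with hM
  have hMv : ∀ v, M *ᵥ v = star (f v) := by
    intro v
    rw [hM, LinearMap.toMatrix'_mulVec]
    rfl
  set F : Matrix n n ℂ := Mᵀ + η • vecMulVec (star u) (star w) - vecMulVec (star w) (star u) with hF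
  have hFb : ∀ v v' : n → ℂ, v ⬝ᵥ (F *ᵥ v') = ip (f v) v' + η * (ip u v * ip w v') - ip w v * ip u v' := by
    intro v v'
    rw [hF, Matrix.sub_mulVec, Matrix.add_mulVec, Matrix.smul_mulVec, dotProduct_sub, dotProduct_add,
      dotProduct_smul, vv_bil, vv_bil, smul_eq_mul]
    have e1 : v ⬝ᵥ (Mᵀ *ᵥ v') = ip (f v) v' := by
      rw [Matrix.dotProduct_mulVec, Matrix.vecMul_transpose, hMv]
      rfl
    rw [e1]
  have hsk : ∀ x : Matrix n n ℂ, (∀ v v' : n → ℂ,
      (ip (f (x *ᵥ v)) v' + η * (ip u (x *ᵥ v) * ip w v') - ip w (x *ᵥ v) * ip u v') +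
      (ip (f v) (x *ᵥ v') + η * (ip u v * ip w (x *ᵥ v')) - ip w v * ip u (x *ᵥ v')) = 0) →
      xᵀ * F + F * x = 0 := by
    intro x hx
    apply ext_bil
    intro v v'
    rw [Matrix.add_mulVec, dotProduct_add, ← Matrix.mulVec_mulVec, ← Matrix.mulVec_mulVec, hFb v,
      Matrix.dotProduct_mulVec, Matrix.vecMul_transpose, hFb]
    exact hx v v'
  have hF0 : F ≠ 0 := by
    intro h0
    have h3 := hFb u w
    rw [h0, Matrix.zero_mulVec, dotProduct_zero, fu, ip_zero_left, O.uu, O.ww, O.wu, zero_mul, zero_add, mul_one,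
      mul_one, sub_zero] at h3
    exact hη h3.symm
  refine ⟨F, hF0, A.form O.spec hH O.ne_zero hF0 (A.deg O hH (p := fun x => xᵀ * F + F * x = 0) ?_ ?_ ?_ ?_)⟩
  · intro a b hab
    apply hsk
    intro v v'
    have e1 : ∀ v, (ro u a + ro b w) *ᵥ v = ip a v • u + ip w v • b := by
      intro v
      rw [Matrix.add_mulVec, ro_mulVec, ro_mulVec]
    have e2 : f (ip a v • u + ip w v • b) = star (ip w v) • a := by
      rw [fadd, fsmul, fsmul, fu, smul_zero, zero_add, fb a b hab]
    have e3 := c1 a b _ _ hab (hf v)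
    have e4 : ip a (pz u w v) = ip a v := by
      rw [pz, ip_sub_right, ip_sub_right, ip_smul_right, ip_smul_right, ip_swap hab.1.1, ip_swap hab.1.2]
      ring
    rw [e4] at e3
    rw [e1, e1, e2]
    simp only [ip_add_left, ip_add_right, ip_smul_left, ip_smul_right, star_star, hab.2.1.1, hab.2.1.2, O.uu, O.wu,
      ip_swap (fV v).1]
    linear_combination ip w v' * e3
  · intro a b hab
    apply hsk
    intro v v'
    have e1 : ∀ v, (ro a u + ro w b) *ᵥ v = ip u v • a + ip b v • w := by
      intro v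
      rw [Matrix.add_mulVec, ro_mulVec, ro_mulVec]
    have e2 : f (ip u v • a + ip b v • w) = star (ip u v) • (-η • b) := by
      rw [fadd, fsmul, fsmul, fw, smul_zero, add_zero, fb _ _ (c2 a b hab)]
    have e3 := c3 a b _ _ hab (hf v)
    have e4 : ip b (pz u w v) = ip b v := by
      rw [pz, ip_sub_right, ip_sub_right, ip_smul_right, ip_smul_right, ip_swap hab.2.1.1, ip_swap hab.2.1.2]
      ring
    rw [e4] at e3
    rw [e1, e1, e2]
    simp only [ip_add_left, ip_add_right, ip_smul_left, ip_smul_right, star_star, star_neg, hs, hab.1.1, hab.1.2,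
      O.uw, O.ww, ip_swap (fV v).2]
    linear_combination ip u v' * e3
  · intro c hc
    by_cases h0 : c = 0
    · rw [h0, zero_smul]
      simp
    have h1 : η = 1 := h2 (by
      have h4 := L.smul_mem c⁻¹ hc
      rwa [smul_smul, inv_mul_cancel₀ h0, one_smul] at h4)
    apply hsk
    intro v v'
    have e1 : ∀ v, (c • ro u w) *ᵥ v = (c * ip w v) • u := by
      intro v
      rw [Matrix.smul_mulVec, ro_mulVec, smul_smul]
    rw [e1, e1, fsmul, fu, smul_zero, h1]
    simp only [ip_zero_left, ip_smul_right, O.uu, O.wu, ip_swap (fV v).1]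
    ring
  · intro c hc
    by_cases h0 : c = 0
    · rw [h0, star_zero, zero_smul]
      simp
    have h1 : η = 1 := h2 (by
      have h4 := L.smul_mem c⁻¹ hc
      rwa [smul_smul, inv_mul_cancel₀ h0, one_smul] at h4)
    apply hsk
    intro v v'
    have e1 : ∀ v, (star c • ro w u) *ᵥ v = (star c * ip u v) • w := by
      intro v
      rw [Matrix.smul_mulVec, ro_mulVec, smul_smul]
    rw [e1, e1, fsmul, fw, smul_zero, h1]
    simp only [ip_zero_left, ip_smul_right, O.uw, O.ww, ip_swap (fV v).2]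
    ring

end MH
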