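import Pool.Agent.Helper55.BL2.Rk1

/-!
Project BL (MP_b8862a_ag): a simple irreducible self-adjoint Lie algebra of matrices of size at least five that
contains a nilpotent matrix of rank one, or `u u* - w w*`, is `sl`, or it preserves a form.
-/

set_option linter.unusedSectionVars false
set_option linter.unusedSimpArgs false

open Matrix Module GH

namespace MH

variable {n : Type*} [Fintype n] [DecidableEq n]
variable {L : Submodule ℂ (Matrix n n ℂ)} {u w : n → ℂ}

/-- `L` is `sl`, or it preserves a form. -/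
def SlF (L : Submodule ℂ (Matrix n n ℂ)) : Prop :=
  (∀ X : Matrix n n ℂ, X.trace = 0 → X ∈ L) ∨ ∃ F : Matrix n n ℂ, F ≠ 0 ∧ ∀ X ∈ L, Xᵀ * F + F * X = 0

/-- `sl` from all the `v w*`, `v` orthogonal to `w` -/
theorem SAl.sl_of_col (A : SAl L) (hw : ip w w = 1) (hn : Fintype.card n ≠ 0)
    (h : ∀ v, ip w v = 0 → ro v w ∈ L) : ∀ X : Matrix n n ℂ, X.trace = 0 → X ∈ L := by
  intro X hX
  have h1 : ∀ v v', ip w v = 0 → ip w v' = 0 → ro v v' - ip v' v • ro w w ∈ L := by
    intro v v' hv hv'
    have h2 := A.br _ (h v hv) _ (A.st _ (h v' hv'))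
    rwa [ro_star, ro_mul, ro_mul, hw, one_smul] at h2
  set q : Matrix n n ℂ := ro w w with hq
  have hqq : q * q = q := by rw [hq, ro_mul, hw, one_smul]
  have hqs : qᴴ = q := by rw [hq, ro_star]
  have hqz : ∀ v, ip w ((1 - q) *ᵥ v) = 0 := by
    intro v
    rw [hq, Matrix.sub_mulVec, Matrix.one_mulVec, ro_mulVec, ip_sub_right, ip_smul_right, hw, mul_one, sub_self]
  have h2 : ∀ i : n, ro ((1 - q) *ᵥ Pi.single i 1) ((1 - q) *ᵥ Pi.single i 1) =
      (1 - q) * ro (Pi.single i 1) (Pi.single i 1) * (1 - q) := by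
    intro i
    rw [mul_ro, ro_mul', conjTranspose_sub, conjTranspose_one, hqs]
  have h3 : ∑ i : n, ro (Pi.single i (1 : ℂ)) (Pi.single i 1) = (1 : Matrix n n ℂ) := by
    ext a b
    rw [Matrix.sum_apply]
    simp only [ro, Matrix.vecMulVec_apply, Pi.star_apply]
    rw [Finset.sum_eq_single a]
    · by_cases hab : a = b
      · subst hab
        simp
      · rw [Matrix.one_apply_ne hab, Pi.single_eq_of_ne (Ne.symm hab)]
        simp
    · intro i _ hi
      rw [Pi.single_eq_of_ne (Ne.symm hi), zero_mul]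
    · intro h
      exact absurd (Finset.mem_univ a) h
  have h4 : ∑ i : n, ro ((1 - q) *ᵥ Pi.single i 1) ((1 - q) *ᵥ Pi.single i 1) = 1 - q := by
    simp only [h2]
    rw [← Finset.sum_mul, ← Finset.mul_sum, h3, mul_one, mul_sub, mul_one, sub_mul, one_mul, hqq, sub_self,
      sub_zero]
  have h5 : ∑ i : n, ip ((1 - q) *ᵥ Pi.single i 1) ((1 - q) *ᵥ Pi.single i 1) = (Fintype.card n : ℂ) - 1 := by
    have h6 := congrArg Matrix.trace h4
    rw [Matrix.trace_sum, Matrix.trace_sub, Matrix.trace_one, hq, ro_trace, hw] at h6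
    simp only [ro_trace] at h6
    exact h6
  have h6 : (1 : ℂ) • (1 : Matrix n n ℂ) + (-(Fintype.card n : ℂ)) • vecMulVec w (star w) ∈ L := by
    have h7 : ∑ i : n, (ro ((1 - q) *ᵥ Pi.single i 1) ((1 - q) *ᵥ Pi.single i 1) -
        ip ((1 - q) *ᵥ Pi.single i 1) ((1 - q) *ᵥ Pi.single i 1) • q) ∈ L :=
      L.sum_mem fun i _ => h1 _ _ (hqz _) (hqz _)
    rw [Finset.sum_sub_distrib, ← Finset.sum_smul, h4, h5] at h7
    have h8 : vecMulVec w (star w) = q := rfl
    rw [h8]
    convert h7 using 1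
    module
  exact sl_of_rank_one A.br A.st A.irr hw (neg_ne_zero.2 (by exact_mod_cast hn)) h6 hX

theorem SAl.mem_H (A : SAl L) (O : On u w) (he : ro u w ∈ L) : ro u u - ro w w ∈ L := by
  have h1 := A.br _ he _ (A.st _ he)
  rwa [ro_star, ro_mul, ro_mul, O.ww, O.uu, one_smul, one_smul] at h1

theorem SAl.jj (A : SAl L) (O : On u w) (he : ro u w ∈ L) {a b : n → ℂ} (h : LL L u w a b) : LL L u w (-b) a := by
  refine ⟨h.2.1.neg, h.1, ?_⟩
  have h1 := A.st _ (A.br _ (A.st _ he) _ h.2.2)
  rw [ro_star] at h1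
  have e1 : ro w u * (ro u a + ro b w) - (ro u a + ro b w) * ro w u = ro w a - ro b u := by
    rw [mul_add, add_mul, ro_mul, ro_mul, ro_mul, ro_mul, O.uu, O.ww, h.2.1.1, ip_swap h.1.2, zero_smul, zero_smul,
      one_smul, one_smul, add_zero, zero_add]
  rw [e1, conjTranspose_sub, ro_star, ro_star] at h1
  rw [ro_neg_right]
  convert h1 using 1
  abel

theorem LL.mem_ro {b : n → ℂ} (h : LL L u w 0 b) : ro b w ∈ L := by
  have h1 := h.2.2
  rwa [ro_zero_right, zero_add] at h1

theorem LL.mem_ro' {a : n → ℂ} (h : LL L u w a 0) : ro u a ∈ L := by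
  have h1 := h.2.2
  rwa [ro_zero_left, add_zero] at h1

/-- **a nilpotent matrix of rank one** -/
theorem SAl.r1 (A : SAl L) (hn : 5 ≤ Fintype.card n) (O : On u w) (he : ro u w ∈ L) : SlF L := by
  have hH := A.mem_H O he
  have j : ∀ {a b : n → ℂ}, LL L u w a b → LL L u w (-b) a := fun h => A.jj O he h
  have hu0 : u ≠ 0 := by
    rintro rfl
    have h1 := O.uu
    rw [ip_zero_left] at h1
    exact zero_ne_one h1
  -- all of `V₀` occurs
  have ex : ∀ v, V0 u w v → ∃ a, LL L u w a v := by
    let W : Submodule ℂ (n → ℂ) :=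
      { carrier := {v | ∃ a, LL L u w a (pz u w v)}
        add_mem' := by
          rintro v v' ⟨a, ha⟩ ⟨a', ha'⟩
          exact ⟨a + a', by rw [pz_add]; exact ha.add ha'⟩
        zero_mem' := ⟨0, by
          rw [pz_of 0 V0.zero]
          exact LL.zero⟩
        smul_mem' := by
          rintro c v ⟨a, ha⟩
          exact ⟨star c • a, by rw [pz_smul]; exact ha.smul c⟩ }
    have hW : ∀ v, v ∈ W ↔ ∃ a, LL L u w a (pz u w v) := fun v => Iff.rfl
    have hWt : W = ⊤ := by
      refine (A.irr1 O hH W ?_ ?_ ?_).resolve_left ?_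
      · intro a b hab v _
        refine ⟨star (ip w v) • a, ?_⟩
        rw [pz_add, pz_smul, pz_smul, pz_u O, smul_zero, zero_add, pz_of b hab.2.1]
        exact hab.smul _
      · intro a b hab v _
        refine ⟨star (ip u v) • (-b), ?_⟩
        rw [pz_add, pz_smul, pz_smul, pz_w O, smul_zero, add_zero, pz_of a hab.1]
        exact (j hab).smul _
      · intro _ v _
        refine ⟨⟨0, ?_⟩, ⟨0, ?_⟩⟩
        · rw [pz_smul, pz_u O, smul_zero]
          exact LL.zero
        · rw [pz_smul, pz_w O, smul_zero]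
          exact LL.zero
      · intro h1
        have h2 : u ∈ W := ⟨0, by rw [pz_u O]; exact LL.zero⟩
        rw [h1, Submodule.mem_bot] at h2
        exact hu0 h2
    intro v hv
    have h1 : v ∈ W := by
      rw [hWt]
      trivial
    obtain ⟨a, ha⟩ := h1
    exact ⟨a, by rwa [pz_of v hv] at ha⟩
  have ex' : ∀ v, V0 u w v → ∃ b, LL L u w v b := by
    intro v hv
    obtain ⟨a, ha⟩ := ex v hv
    refine ⟨-a, ?_⟩
    have h1 := (j ha).neg
    rwa [neg_neg] at h1
  by_cases hK : ∃ b, b ≠ 0 ∧ LL L u w 0 b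
  · -- `L` is everything
    left
    obtain ⟨b, hb0, hb⟩ := hK
    have hall : ∀ v, V0 u w v → LL L u w 0 v := by
      intro v hv
      obtain ⟨a', ha'⟩ := ex v hv
      have h1 := LL.triple O A.br A.st hb hb ha'
      rw [ip_zero_left, ip_zero_left, ip_zero_left, zero_smul, zero_smul, zero_sub, sub_zero,
        add_zero] at h1
      have h2 := hb.smul (ip b v)
      have h3 := (j hb).smul (star (ip b a'))
      rw [smul_zero] at h2 h3
      rw [star_star, smul_neg] at h3
      have h4 := (h1.sub h3).sub h2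
      rw [sub_self, sub_self, sub_zero] at h4
      have h5 : ip b v • b + ip b b • v - ip b v • b = ip b b • v := by abel
      rw [h5] at h4
      have h6 := h4.smul (ip b b)⁻¹
      rwa [smul_zero, smul_smul, inv_mul_cancel₀ (ip_self_ne hb0), one_smul] at h6
    refine A.sl_of_col O.ww (by omega) fun v hv => ?_
    have h1 : v = pz u w v + ip u v • u := by
      conv_lhs => rw [pz_decomp (u := u) (w := w) v]
      rw [hv, zero_smul, add_zero]
    rw [h1, ro_add_left, ro_smul_left]
    exact L.add_mem (hall _ (pz_V0 O v)).mem_ro (L.smul_mem _ he)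
  · -- a graph
    right
    push Not at hK
    have uq : ∀ a, LL L u w a 0 → a = 0 := by
      intro a ha
      have h1 := j ha
      rw [neg_zero] at h1
      by_contra h2
      exact hK a h2 h1
    have key : ∀ a b c d a' b', LL L u w a b → LL L u w c d → LL L u w a' b' →
        (ip c a - ip b d) • a' + (ip c a' - ip b' d) • a - (ip b a' + ip b' a) • d = 0 := by
      intro a b c d a' b' h1 h2 h3
      have t := LL.triple O A.br A.st h1 h2 h3
      have s1 := h1.smul (ip d b')
      have s2 := (j h2).smul (ip a b')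
      have s3 := h3.smul (ip d b)
      have h4 := t.sub ((s1.sub s2).add s3)
      rw [sub_self] at h4
      have h5 := uq _ h4
      rw [ip_star, ip_star, ip_star] at h5
      rw [← h5]
      module
    have S0 : ∀ a b a' b', LL L u w a b → LL L u w a' b' → ip b a' + ip b' a = 0 := by
      intro a b a' b' h1 h3
      obtain ⟨d, hd0, hd1, hd2, hd3, hd4⟩ := exists_four hn u w a a'
      obtain ⟨c, hc⟩ := ex d ⟨hd1, hd2⟩
      have h4 := congrArg (ip d) (key a b c d a' b' h1 hc h3)
      rw [ip_sub_right, ip_add_right, ip_smul_right, ip_smul_right, ip_smul_right, ip_swap hd3, ip_swap hd4,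
        mul_zero, mul_zero, zero_add, zero_sub, ip_zero_right, neg_eq_zero] at h4
      exact (mul_eq_zero.1 h4).resolve_right (ip_self_ne hd0)
    refine A.form1 O hH (η := 1) one_ne_zero (star_one _) ex uq ?_ ?_ ?_ fun _ => rfl
    · intro a b a' b' h1 h3
      have h4 := congrArg star (S0 a b a' b' h1 h3)
      rw [star_add, ip_star, ip_star, star_zero] at h4
      rw [one_mul, add_comm]
      exact h4
    · intro a b h1
      rw [neg_one_smul]
      exact j h1
    · intro a b c d h1 h2
      obtain ⟨a', ha0, ha1, ha2, ha3, _⟩ := exists_four hn u w a 0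
      obtain ⟨b', hb'⟩ := ex' a' ⟨ha1, ha2⟩
      have h4 := congrArg (ip a') (key a b c d a' b' h1 h2 hb')
      rw [S0 a b a' b' h1 hb', zero_smul, sub_zero, ip_add_right, ip_smul_right, ip_smul_right, ip_swap ha3,
        mul_zero, add_zero, ip_zero_right] at h4
      exact sub_eq_zero.1 ((mul_eq_zero.1 h4).resolve_right (ip_self_ne ha0))

/-- the same without normalisation -/
theorem SAl.r1' (A : SAl L) (hn : 5 ≤ Fintype.card n) (hu : u ≠ 0) (hw : w ≠ 0) (huw : ip u w = 0)
    (he : ro u w ∈ L) : SlF L := by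
  obtain ⟨s, hs0, hs⟩ := exists_unit hu
  obtain ⟨t, ht0, ht⟩ := exists_unit hw
  refine A.r1 hn (u := s • u) (w := t • w) ⟨hs, ht, ?_⟩ ?_
  · rw [ip_smul_left, ip_smul_right, huw, mul_zero, mul_zero]
  · rw [ro_smul_left, ro_smul_right]
    exact L.smul_mem _ (L.smul_mem _ he)

end MH
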