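import Pool.Agent.Helper55.BL2.Rk2

/-!
Project BL (MP_b8862a_ag): a simple irreducible self-adjoint Lie algebra of matrices of size at least five that
contains `u u* - w w*`, `u`, `w` orthonormal, is `sl`, or it preserves a form.
-/

set_option linter.unusedSectionVars false
set_option linter.unusedSimpArgs false

open Matrix Module GH

namespace MH

variable {n : Type*} [Fintype n] [DecidableEq n]
variable {L : Submodule ℂ (Matrix n n ℂ)} {u w : n → ℂ}

/-- **the matrix `u u* - w w*`** -/
theorem SAl.r2 (A : SAl L) (hn : 5 ≤ Fintype.card n) (O : On u w) (hH : ro u u - ro w w ∈ L) : SlF L := by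
  have hu0 : u ≠ 0 := by
    rintro rfl
    have h1 := O.uu
    rw [ip_zero_left] at h1
    exact zero_ne_one h1
  have hw0 : w ≠ 0 := by
    rintro rfl
    have h1 := O.ww
    rw [ip_zero_left] at h1
    exact zero_ne_one h1
  by_cases he : ro u w ∈ L
  · exact A.r1 hn O he
  by_cases k1 : ∃ b, b ≠ 0 ∧ LL L u w 0 b
  · obtain ⟨b, hb0, hb⟩ := k1
    exact A.r1' hn hb0 hw0 (ip_swap hb.2.1.2) hb.mem_ro
  by_cases k2 : ∃ a, a ≠ 0 ∧ LL L u w a 0
  · obtain ⟨a, ha0, ha⟩ := k2
    exact A.r1' hn hu0 ha0 ha.1.1 ha.mem_ro'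
  push Not at k1 k2
  right
  have uq : ∀ a, LL L u w a 0 → a = 0 := by
    intro a ha
    by_contra h2
    exact k2 a h2 ha
  have uq1 : ∀ b, LL L u w 0 b → b = 0 := by
    intro a ha
    by_contra h2
    exact k1 a h2 ha
  have sym : ∀ a b c d, LL L u w a b → LL L u w c d → ip a d = ip c b := by
    intro a b c d h1 h2
    have h3 := A.br _ h1.2.2 _ h2.2.2
    have e1 : (ro u a + ro b w) * (ro u c + ro d w) - (ro u c + ro d w) * (ro u a + ro b w) =
        (ip a d - ip c b) • ro u w := by
      simp only [add_mul, mul_add, ro_mul, ip_swap h1.1.1, ip_swap h2.1.1, O.wu, h1.2.1.2, h2.2.1.2, zero_smul,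
        add_zero, zero_add]
      module
    rw [e1] at h3
    by_contra h4
    apply he
    have h5 := L.smul_mem (ip a d - ip c b)⁻¹ h3
    rwa [smul_smul, inv_mul_cancel₀ (sub_ne_zero.2 h4), one_smul] at h5
  -- the first components are second components
  have hAB : ∀ c d, LL L u w c d → ∃ a, LL L u w a c := by
    by_cases hab : ∃ a b a' b', LL L u w a b ∧ LL L u w a' b' ∧ ip a b' ≠ 0
    · obtain ⟨a, b, a', b', h1, h3, h4⟩ := hab
      intro c d h2
      have t := LL.triple O A.br A.st h1 h2 h3
      have s1 := h1.smul (ip d b')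
      have s3 := h3.smul (ip d b)
      have t2 := (t.sub (s1.add s3)).smul (-(ip a b')⁻¹)
      refine ⟨star (-(ip a b')⁻¹) • (ip c a • a' - ip b a' • d + ip c a' • a -
          (star (ip d b') • a + star (ip d b) • a')), ?_⟩
      convert t2 using 1
      have e1 : ip d b' • b - ip a b' • c + ip d b • b' - (ip d b' • b + ip d b • b') = -(ip a b' • c) := by abel
      rw [e1, smul_neg, neg_smul, neg_neg, smul_smul, inv_mul_cancel₀ h4, one_smul]
    · exfalso
      push Not at hab
      let W : Submodule ℂ (n → ℂ) :=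
        { carrier := {v | ip u v = 0 ∧ ∃ a, LL L u w a (pz u w v)}
          add_mem' := by
            rintro v v' ⟨h1, a, ha⟩ ⟨h1', a', ha'⟩
            exact ⟨by rw [ip_add_right, h1, h1', add_zero], a + a', by rw [pz_add]; exact ha.add ha'⟩
          zero_mem' := ⟨ip_zero_right _, 0, by
            rw [pz_of 0 V0.zero]
            exact LL.zero⟩
          smul_mem' := by
            rintro c v ⟨h1, a, ha⟩
            exact ⟨by rw [ip_smul_right, h1, mul_zero], star c • a, by rw [pz_smul]; exact ha.smul c⟩ }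
      have hW : ∀ v, v ∈ W ↔ ip u v = 0 ∧ ∃ a, LL L u w a (pz u w v) := fun v => Iff.rfl
      have hW0 := A.irr1 O hH W (by
        rintro a b hab1 v ⟨hv, a', ha'⟩
        have e1 : ip a v = 0 := by
          have e2 := hab a b a' _ hab1 ha'
          rw [pz, ip_sub_right, ip_sub_right, ip_smul_right, ip_smul_right, ip_swap hab1.1.1,
            ip_swap hab1.1.2] at e2
          simpa using e2
        rw [e1, zero_smul, zero_add]
        refine ⟨by rw [ip_smul_right, hab1.2.1.1, mul_zero], star (ip w v) • a, ?_⟩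
        rw [pz_smul, pz_of b hab1.2.1]
        exact hab1.smul _) (by
        rintro a b hab1 v ⟨hv, a', ha'⟩
        rw [hv, zero_smul, zero_add]
        refine ⟨by rw [ip_smul_right, O.uw, mul_zero], 0, ?_⟩
        rw [pz_smul, pz_w O, smul_zero]
        exact LL.zero) (fun h => absurd h he)
      rcases hW0 with h1 | h1
      · have h2 : w ∈ W := ⟨O.uw, 0, by rw [pz_w O]; exact LL.zero⟩
        rw [h1, Submodule.mem_bot] at h2
        exact hw0 h2
      · have h2 : u ∈ W := by
          rw [h1]
          trivial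
        have h3 := h2.1
        rw [O.uu] at h3
        exact one_ne_zero h3
  -- all of `V₀` occurs
  have ex : ∀ v, V0 u w v → ∃ a, LL L u w a v := by
    let W : Submodule ℂ (n → ℂ) :=
      { carrier := {v | ∃ a, LL L u w a (pz u w v)}
        add_mem' := by
          rintro v v' ⟨a, ha⟩ ⟨a', ha'⟩
          exact ⟨a + a', by rw [pz_add]; exact ha.add ha'⟩
        zero_mem' := ⟨0, by
          rw [pz_of 0 V0.zero]
          exact LL.zero⟩
        smul_mem' := by
          rintro c v ⟨a, ha⟩
          exact ⟨star c • a, by rw [pz_smul]; exact ha.smul c⟩ }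
    have hWt : W = ⊤ := by
      refine (A.irr1 O hH W ?_ ?_ ?_).resolve_left ?_
      · intro a b hab v _
        refine ⟨star (ip w v) • a, ?_⟩
        rw [pz_add, pz_smul, pz_smul, pz_u O, smul_zero, zero_add, pz_of b hab.2.1]
        exact hab.smul _
      · intro a b hab v _
        obtain ⟨a', ha'⟩ := hAB a b hab
        refine ⟨star (ip u v) • a', ?_⟩
        rw [pz_add, pz_smul, pz_smul, pz_w O, smul_zero, add_zero, pz_of a hab.1]
        exact ha'.smul _
      · intro h
        exact absurd h he
      · intro h1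
        have h2 : u ∈ W := ⟨0, by rw [pz_u O]; exact LL.zero⟩
        rw [h1, Submodule.mem_bot] at h2
        exact hu0 h2
    intro v hv
    have h1 : v ∈ W := by
      rw [hWt]
      trivial
    obtain ⟨a, ha⟩ := h1
    exact ⟨a, by rwa [pz_of v hv] at ha⟩
  have symc : ∀ a b a' b', LL L u w a b → LL L u w a' b' → ip b' a = ip b a' := by
    intro a b a' b' h1 h3
    have h4 := congrArg star (sym a b a' b' h1 h3)
    rwa [ip_star, ip_star] at h4
  -- `φ ^ 2 = 1`
  have hs : ∀ c d c₂, LL L u w c d → LL L u w c₂ c → c₂ = d := by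
    intro c d c₂ h2 h2'
    have key : ∀ a b a' b', LL L u w a b → LL L u w a' b' →
        ip b (c₂ - d) • a' + ip b' (c₂ - d) • a + ip b a' • (c₂ - d) = 0 := by
      intro a b a' b' h1 h3
      have t := LL.triple O A.br A.st h1 h2 h3
      have s1 := h1.smul (ip d b')
      have s2 := h2'.smul (ip a b')
      have s3 := h3.smul (ip d b)
      have h4 := t.sub ((s1.sub s2).add s3)
      rw [sub_self] at h4
      have h5 := uq _ h4
      rw [ip_star, ip_star, ip_star, symc a b a' b' h1 h3, symc a b c₂ c h1 h2', symc a' b' c₂ c h3 h2'] at h5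
      rw [ip_sub_right, ip_sub_right, ← h5]
      module
    by_contra hne
    set s := c₂ - d with hsd
    have hs0 : s ≠ 0 := sub_ne_zero.2 hne
    have hsV : V0 u w s := h2'.1.sub h2.2.1
    obtain ⟨a', ha'⟩ := ex s hsV
    obtain ⟨b, hb0, hb1, hb2, hb3, hb4⟩ := exists_four hn u w s a'
    obtain ⟨a, ha⟩ := ex b ⟨hb1, hb2⟩
    have h3 := key a b a' s ha ha'
    rw [ip_swap hb3, ip_swap hb4, zero_smul, zero_smul, zero_add, add_zero] at h3
    have h4 := (smul_eq_zero.1 h3).resolve_left (ip_self_ne hs0)
    rw [h4] at ha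
    exact hb0 (uq1 b ha)
  refine A.form1 O hH (η := -1) (by norm_num) (by rw [star_neg, star_one]) ex uq ?_ ?_ ?_ fun h => absurd h he
  · intro a b a' b' h1 h3
    rw [sym a b a' b' h1 h3]
    ring
  · intro a b h1
    rw [neg_neg, one_smul]
    obtain ⟨c, hc⟩ := ex a h1.1
    have h2 := hs a b c h1 hc
    rwa [h2] at hc
  · intro a b c d h1 h2
    obtain ⟨c₂, hc⟩ := ex c h2.1
    rw [symc a b c₂ c h1 hc, hs c d c₂ h2 hc]

end MH
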