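import Pool.Agent.Helper55.BL2.Rk3

/-!
Project BL (MP_b8862a_ag): a simple irreducible self-adjoint Lie algebra of matrices of size `n` at least five that
contains a Hermitian matrix with an eigenvalue of multiplicity `n - 2`, the case of two eigenvalues.
-/

set_option linter.unusedSectionVars false
set_option linter.unusedSimpArgs false

open Matrix Module GH

namespace MH

variable {n : Type*} [Fintype n] [DecidableEq n]
variable {L : Submodule ℂ (Matrix n n ℂ)} {h : Matrix n n ℂ} {E : ℝ → Matrix n n ℂ} {Λ : Finset ℝ}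

theorem ip_mulVec (M : Matrix n n ℂ) (a b : n → ℂ) : ip a (M *ᵥ b) = ip (Mᴴ *ᵥ a) b := by
  unfold ip
  rw [Matrix.star_mulVec, conjTranspose_conjTranspose, Matrix.dotProduct_mulVec]

/-- an orthonormal basis of the range of a projection of rank two, the first vector being an eigenvector -/
theorem exists_pair {P A : Matrix n n ℂ} (hP : P * P = P) (hPs : Pᴴ = P) (hr : P.rank = 2) (hPA : P * A = A) :
    ∃ (f g : n → ℂ) (t : ℂ), On f g ∧ P = ro f f + ro g g ∧ A *ᵥ f = t • f := by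
  classical
  set V := LinearMap.range P.mulVecLin with hV
  have hVm : ∀ v, v ∈ V ↔ P *ᵥ v = v := by
    intro v
    constructor
    · rintro ⟨u, rfl⟩
      rw [Matrix.mulVecLin_apply, Matrix.mulVec_mulVec, hP]
    · intro h
      exact ⟨v, h⟩
  have hfr : Module.finrank ℂ V = 2 := hr
  have : Nontrivial V := Module.nontrivial_of_finrank_pos (R := ℂ) (by omega)
  let T : V →ₗ[ℂ] V := (A.mulVecLin).restrict (p := V) (q := V) (by
    intro v _
    rw [hVm, Matrix.mulVecLin_apply, Matrix.mulVec_mulVec, hPA])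
  obtain ⟨t, ht⟩ := Module.End.exists_eigenvalue T
  obtain ⟨f0, hf0⟩ := ht.exists_hasEigenvector
  have hf1 : A *ᵥ (f0 : n → ℂ) = t • (f0 : n → ℂ) := by
    have h1 := congrArg Subtype.val hf0.apply_eq_smul
    exact h1
  have hf2 : (f0 : n → ℂ) ≠ 0 := fun h1 => hf0.2 (Subtype.ext h1)
  have hf3 : P *ᵥ (f0 : n → ℂ) = f0 := (hVm _).1 f0.2
  obtain ⟨s, hs0, hs⟩ := exists_unit hf2
  set f := s • (f0 : n → ℂ) with hf
  have hPf : P *ᵥ f = f := by rw [hf, Matrix.mulVec_smul, hf3]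
  have hAf : A *ᵥ f = t • f := by rw [hf, Matrix.mulVec_smul, hf1, smul_comm]
  set P' := P - ro f f with hP'
  have e1 : P * ro f f = ro f f := by rw [mul_ro, hPf]
  have e2 : ro f f * P = ro f f := by rw [ro_mul', hPs, hPf]
  have hP1 : P' * P' = P' := by
    rw [hP', mul_sub, sub_mul, sub_mul, hP, e1, e2, ro_mul, hs, one_smul, sub_self, sub_zero]
  have hP2 : P'ᴴ = P' := by rw [hP', conjTranspose_sub, hPs, ro_star]
  have hP3 : P'.rank = 1 := by
    have h1 : P'.trace = P.trace - 1 := by rw [hP', Matrix.trace_sub, ro_trace, hs]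
    rw [trace_eq_rank hP1, trace_eq_rank hP, hr] at h1
    have h2 : (P'.rank : ℂ) = ((1 : ℕ) : ℂ) := by
      rw [h1]
      norm_num
    exact_mod_cast h2
  obtain ⟨g, hg1, hg2⟩ := exists_vec98 hP1 hP2 hP3
  have hg2' : P' = ro g g := hg2
  have hg1' : ip g g = 1 := hg1
  refine ⟨f, g, t, ⟨hs, hg1', ?_⟩, ?_, hAf⟩
  · have h1 : P' *ᵥ f = 0 := by
      rw [hP', Matrix.sub_mulVec, hPf, ro_mulVec, hs, one_smul, sub_self]
    rw [hg2', ro_mulVec] at h1
    have hg0 : g ≠ 0 := by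
      rintro rfl
      rw [ip_zero_left] at hg1'
      exact zero_ne_one hg1'
    exact ip_swap ((smul_eq_zero.1 h1).resolve_right hg0)
  · rw [← hg2', hP']
    abel

/-- **two eigenvalues** -/
theorem SAl.r3 (A : SAl L) (hn : 5 ≤ Fintype.card n) (hS : Spec h E Λ) (hh : h ∈ L) (h0 : h ≠ 0) {μ ν : ℝ}
    (hμν : μ ≠ ν) (h1 : E μ + E ν = 1) (h2 : (E ν).rank = 2) : SlF L := by
  classical
  have G := A.gr hS hh
  by_contra hcon
  have no1 : ∀ u w : n → ℂ, u ≠ 0 → ip u w = 0 → ro u w ∈ L → w = 0 := by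
    intro u w hu huw he
    by_contra hw
    exact hcon (A.r1' hn hu hw huw he)
  have hmul := hS.mul
  have hPP : E ν * E ν = E ν := by rw [hmul, if_pos rfl]
  have hQQ : E μ * E μ = E μ := by rw [hmul, if_pos rfl]
  have hPQ : E ν * E μ = 0 := by rw [hmul, if_neg (Ne.symm hμν)]
  have hQP : E μ * E ν = 0 := by rw [hmul, if_neg hμν]
  have hE0 : ∀ ρ, ρ ≠ μ → ρ ≠ ν → E ρ = 0 := by
    intro ρ h3 h4
    calc E ρ = E ρ * (E μ + E ν) := by rw [h1, mul_one]
      _ = 0 := by rw [mul_add, hmul, hmul, if_neg h3, if_neg h4, add_zero]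
  -- the elements of nonzero degree
  have hdeg : ∀ κ : ℝ, κ ≠ 0 → ∀ x ∈ Ld L h κ, x = E ν * x * E μ ∨ x = E μ * x * E ν := by
    intro κ hκ x hx
    have k1 := G.Ld_mul_E hx μ
    have k2 := G.Ld_mul_E hx ν
    have hs : x = x * E μ + x * E ν := by rw [← mul_add, h1, mul_one]
    by_cases c1 : μ + κ = ν
    · left
      rw [c1] at k1
      rw [hE0 (ν + κ) (by intro h5; apply hκ; linarith) (by intro h5; apply hκ; linarith), zero_mul, zero_mul] at k2
      rw [k1, k2, add_zero] at hs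
      exact hs
    · rw [hE0 (μ + κ) (by intro h5; apply hκ; linarith) c1, zero_mul, zero_mul] at k1
      right
      rw [k1, zero_add] at hs
      by_cases c2 : ν + κ = μ
      · rw [c2] at k2
        rw [k2] at hs
        exact hs
      · rw [hE0 (ν + κ) c2 (by intro h5; apply hκ; linarith), zero_mul, zero_mul] at k2
        rw [k2] at hs
        rw [hs, mul_zero, zero_mul]
  set P := E ν with hP
  set Q := E μ with hQ
  have hPs : Pᴴ = P := hS.star ν
  have hQs : Qᴴ = Q := hS.star μ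
  -- `x x* = s P`
  have hsq : ∀ x ∈ L, x = P * x * Q → ∃ s : ℂ, x * xᴴ = s • P := by
    intro x hx hxe
    have hxP : P * x = x := by rw [hxe, ← mul_assoc, ← mul_assoc, hPP]
    have hxQ : x * Q = x := by rw [hxe, mul_assoc, hQQ]
    have hxx : x * x = 0 := by
      calc x * x = (x * Q) * (P * x) := by rw [hxP, hxQ]
        _ = x * (Q * P) * x := by simp only [mul_assoc]
        _ = 0 := by rw [hQP, mul_zero, zero_mul]
    have hx3 : x * xᴴ * x ∈ L := by
      have h3 := A.br _ (A.br _ hx _ (A.st _ hx)) _ hx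
      have h4 : (x * xᴴ - xᴴ * x) * x - x * (x * xᴴ - xᴴ * x) =
          (2 : ℂ) • (x * xᴴ * x) - xᴴ * (x * x) - (x * x) * xᴴ := by
        rw [two_smul]
        noncomm_ring
      rw [h4, hxx, mul_zero, zero_mul, sub_zero, sub_zero] at h3
      have h5 := L.smul_mem (2⁻¹ : ℂ) h3
      rwa [smul_smul, inv_mul_cancel₀ two_ne_zero, one_smul] at h5
    set M := x * xᴴ with hM
    have hMs : Mᴴ = M := by rw [hM, conjTranspose_mul, conjTranspose_conjTranspose]
    have hPM : P * M = M := by rw [hM, ← mul_assoc, hxP]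
    have hMP : M * P = M := by
      have h3 := congrArg conjTranspose hPM
      rwa [conjTranspose_mul, hMs, hPs] at h3
    obtain ⟨f, g, t, O, hPfg, hMf⟩ := exists_pair hPP hPs h2 hPM
    have ht : star t = t := by
      have h3 : ip f (M *ᵥ f) = t := by rw [hMf, ip_smul_right, O.uu, mul_one]
      have h4 : ip f (M *ᵥ f) = star t := by rw [ip_mulVec, hMs, hMf, ip_smul_left, O.uu, mul_one]
      rw [← h4, h3]
    have hf0 : f ≠ 0 := by
      rintro rfl
      have h3 := O.uu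
      rw [ip_zero_left] at h3
      exact zero_ne_one h3
    have hg0 : g ≠ 0 := by
      rintro rfl
      have h3 := O.ww
      rw [ip_zero_left] at h3
      exact zero_ne_one h3
    have hPf : P *ᵥ f = f := by
      rw [hPfg, Matrix.add_mulVec, ro_mulVec, ro_mulVec, O.uu, O.wu, one_smul, zero_smul, add_zero]
    have hPg : P *ᵥ g = g := by
      rw [hPfg, Matrix.add_mulVec, ro_mulVec, ro_mulVec, O.uw, O.ww, one_smul, zero_smul, zero_add]
    have hQf : Q *ᵥ f = 0 := by rw [← hPf, Matrix.mulVec_mulVec, hQP, Matrix.zero_mulVec]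
    have hQg : Q *ᵥ g = 0 := by rw [← hPg, Matrix.mulVec_mulVec, hQP, Matrix.zero_mulVec]
    -- a vector orthogonal to `P`
    have hro : ∀ y : Matrix n n ℂ, P * y = y → y = ro f (yᴴ *ᵥ f) + ro g (yᴴ *ᵥ g) := by
      intro y hy
      calc y = P * y := hy.symm
        _ = _ := by rw [hPfg, add_mul, ro_mul', ro_mul']
    have hort : ∀ y : Matrix n n ℂ, y * Q = y → ∀ a b : n → ℂ, Q *ᵥ a = 0 → ip a (yᴴ *ᵥ b) = 0 := by
      intro y hy a b ha
      have h3 : yᴴ = Q * yᴴ := by
        have h4 := congrArg conjTranspose hy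
        rw [conjTranspose_mul, hQs] at h4
        exact h4.symm
      rw [h3, ← Matrix.mulVec_mulVec, ip_mulVec, hQs, ha, ip_zero_left]
    set y := M * x - t • x with hy
    have hyL : y ∈ L := L.sub_mem hx3 (L.smul_mem t hx)
    have hyP : P * y = y := by rw [hy, mul_sub, ← mul_assoc, hPM, mul_smul_comm, hxP]
    have hyQ : y * Q = y := by rw [hy, sub_mul, mul_assoc, hxQ, smul_mul_assoc, hxQ]
    have hyf : yᴴ *ᵥ f = 0 := by
      rw [hy, conjTranspose_sub, conjTranspose_mul, hMs, conjTranspose_smul, ht, Matrix.sub_mulVec,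
        ← Matrix.mulVec_mulVec, hMf, Matrix.mulVec_smul, Matrix.smul_mulVec, sub_self]
    have hyg : y = ro g (yᴴ *ᵥ g) := by
      conv_lhs => rw [hro y hyP, hyf, ro_zero_right, zero_add]
    have hyg0 : yᴴ *ᵥ g = 0 := by
      refine no1 g _ hg0 (hort y hyQ g g hQg) ?_
      rw [← hyg]
      exact hyL
    -- `M g = t' g`
    have hMg : M *ᵥ g = ip g (M *ᵥ g) • g := by
      have h3 : M *ᵥ g = P *ᵥ (M *ᵥ g) := by rw [Matrix.mulVec_mulVec, hPM]
      have h4 : ip f (M *ᵥ g) = 0 := by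
        rw [ip_mulVec, hMs, hMf, ip_smul_left, O.uw, mul_zero]
      conv_lhs => rw [h3, hPfg, Matrix.add_mulVec, ro_mulVec, ro_mulVec, h4, zero_smul, zero_add]
    set t' := ip g (M *ᵥ g) with ht'
    have h5 : (t' - t) • (xᴴ *ᵥ g) = 0 := by
      rw [hy, conjTranspose_sub, conjTranspose_mul, hMs, conjTranspose_smul, ht, Matrix.sub_mulVec,
        ← Matrix.mulVec_mulVec, hMg, Matrix.mulVec_smul, Matrix.smul_mulVec, ← sub_smul] at hyg0
      exact hyg0
    rcases smul_eq_zero.1 h5 with h6 | h6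
    · refine ⟨t, ?_⟩
      have h7 : t' = t := sub_eq_zero.1 h6
      rw [h7] at hMg
      calc M = M * P := hMP.symm
        _ = t • P := by
          rw [hPfg, mul_add, mul_ro, mul_ro, hMf, hMg, ro_smul_left, ro_smul_left, smul_add]
    · refine ⟨0, ?_⟩
      have h7 : x = ro f (xᴴ *ᵥ f) := by
        conv_lhs => rw [hro x hxP, h6, ro_zero_right, add_zero]
      have h8 : xᴴ *ᵥ f = 0 := by
        refine no1 f _ hf0 (hort x hxQ f f hQf) ?_
        rw [← h7]
        exact hx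
      rw [hM, h7, h8, ro_zero_right, zero_mul, zero_smul]
  -- polarisation
  have hpol : ∀ x ∈ L, x = P * x * Q → ∀ y ∈ L, y = P * y * Q → ∃ s : ℂ, x * yᴴ = s • P := by
    intro x hx hxe y hy hye
    have k1 : x + y = P * (x + y) * Q := by rw [mul_add, add_mul, ← hxe, ← hye]
    have k2 : x + Complex.I • y = P * (x + Complex.I • y) * Q := by
      rw [mul_add, add_mul, mul_smul_comm, smul_mul_assoc, ← hxe, ← hye]
    obtain ⟨s1, e1⟩ := hsq x hx hxe
    obtain ⟨s2, e2⟩ := hsq y hy hye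
    obtain ⟨s3, e3⟩ := hsq _ (L.add_mem hx hy) k1
    obtain ⟨s4, e4⟩ := hsq _ (L.add_mem hx (L.smul_mem Complex.I hy)) k2
    rw [conjTranspose_add, mul_add, add_mul, add_mul, e1, e2] at e3
    rw [conjTranspose_add, conjTranspose_smul, Complex.star_def, Complex.conj_I, mul_add, add_mul, add_mul, e1,
      mul_smul_comm, mul_smul_comm, smul_mul_assoc, smul_mul_assoc, e2, smul_smul] at e4
    have k3 : -Complex.I * Complex.I = 1 := by
      rw [neg_mul, Complex.I_mul_I, neg_neg]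
    rw [k3, one_smul] at e4
    have e5 : x * yᴴ + y * xᴴ = (s3 - s1 - s2) • P := by
      rw [sub_smul, sub_smul, ← e3]
      abel
    have e6 : -Complex.I • (x * yᴴ) + Complex.I • (y * xᴴ) = (s4 - s1 - s2) • P := by
      rw [sub_smul, sub_smul, ← e4]
      abel
    refine ⟨2⁻¹ * (s3 - s1 - s2) + 2⁻¹ * Complex.I * (s4 - s1 - s2), ?_⟩
    have e7 : Complex.I • (-Complex.I • (x * yᴴ) + Complex.I • (y * xᴴ)) = x * yᴴ - y * xᴴ := by
      rw [smul_add, smul_smul, smul_smul, mul_neg, Complex.I_mul_I, neg_neg, one_smul, neg_one_smul,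
        ← sub_eq_add_neg]
    have e8 : x * yᴴ = (2⁻¹ : ℂ) • (x * yᴴ + y * xᴴ) +
        (2⁻¹ : ℂ) • (Complex.I • (-Complex.I • (x * yᴴ) + Complex.I • (y * xᴴ))) := by
      rw [e7]
      module
    rw [e8, e5, e6]
    module
  -- a stable subspace
  obtain ⟨f, g, t, O, hPfg, -⟩ := exists_pair hPP hPs h2 (A := P) hPP
  have hPf : P *ᵥ f = f := by
    rw [hPfg, Matrix.add_mulVec, ro_mulVec, ro_mulVec, O.uu, O.wu, one_smul, zero_smul, add_zero]
  have hPg : P *ᵥ g = g := by
    rw [hPfg, Matrix.add_mulVec, ro_mulVec, ro_mulVec, O.uw, O.ww, one_smul, zero_smul, zero_add]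
  have hQf : Q *ᵥ f = 0 := by rw [← hPf, Matrix.mulVec_mulVec, hQP, Matrix.zero_mulVec]
  let D : Submodule ℂ (Matrix n n ℂ) :=
    { carrier := {x | x ∈ L ∧ x = P * x * Q}
      add_mem' := by
        rintro x y ⟨hx, hx'⟩ ⟨hy, hy'⟩
        exact ⟨L.add_mem hx hy, by rw [mul_add, add_mul, ← hx', ← hy']⟩
      zero_mem' := ⟨L.zero_mem, by rw [mul_zero, zero_mul]⟩
      smul_mem' := by
        rintro c x ⟨hx, hx'⟩
        exact ⟨L.smul_mem c hx, by rw [mul_smul_comm, smul_mul_assoc, ← hx']⟩ }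
  let W : Submodule ℂ (n → ℂ) :=
    { carrier := {v | ∃ (c : ℂ) (x : Matrix n n ℂ), x ∈ D ∧ v = c • f + xᴴ *ᵥ f}
      add_mem' := by
        rintro v v' ⟨c, x, hx, rfl⟩ ⟨c', x', hx', rfl⟩
        refine ⟨c + c', x + x', D.add_mem hx hx', ?_⟩
        rw [conjTranspose_add, Matrix.add_mulVec, add_smul]
        abel
      zero_mem' := ⟨0, 0, D.zero_mem, by rw [zero_smul, conjTranspose_zero, Matrix.zero_mulVec, add_zero]⟩
      smul_mem' := by
        rintro c v ⟨c', x', hx', rfl⟩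
        refine ⟨c * c', star c • x', D.smul_mem _ hx', ?_⟩
        rw [conjTranspose_smul, star_star, Matrix.smul_mulVec, smul_add, smul_smul] }
  have hDs : ∀ x ∈ D, xᴴ = Q * xᴴ * P := by
    rintro x ⟨_, hx⟩
    have h3 := congrArg conjTranspose hx
    rw [conjTranspose_mul, conjTranspose_mul, hPs, hQs, ← mul_assoc] at h3
    exact h3
  have hst1 : ∀ x ∈ D, ∀ v ∈ W, x *ᵥ v ∈ W := by
    rintro x hx v ⟨c, y, hy, rfl⟩
    obtain ⟨s, hs⟩ := hpol x hx.1 hx.2 y hy.1 hy.2
    refine ⟨s, 0, D.zero_mem, ?_⟩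
    have h3 : x *ᵥ f = 0 := by
      rw [hx.2, ← Matrix.mulVec_mulVec, hQf, Matrix.mulVec_zero]
    rw [Matrix.mulVec_add, Matrix.mulVec_smul, h3, smul_zero, zero_add, Matrix.mulVec_mulVec, hs,
      Matrix.smul_mulVec, hPf, conjTranspose_zero, Matrix.zero_mulVec, add_zero]
  have hst2 : ∀ x ∈ D, ∀ v ∈ W, xᴴ *ᵥ v ∈ W := by
    rintro x hx v ⟨c, y, hy, rfl⟩
    refine ⟨0, star c • x, D.smul_mem _ hx, ?_⟩
    have h3 : xᴴ * yᴴ = 0 := by
      rw [hDs x hx, hDs y hy]
      calc Q * xᴴ * P * (Q * yᴴ * P) = Q * xᴴ * (P * Q) * yᴴ * P := by simp only [mul_assoc]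
        _ = 0 := by rw [hPQ, mul_zero, zero_mul, zero_mul]
    rw [Matrix.mulVec_add, Matrix.mulVec_smul, Matrix.mulVec_mulVec, h3, Matrix.zero_mulVec, add_zero, zero_smul,
      zero_add, conjTranspose_smul, star_star, Matrix.smul_mulVec]
  rcases A.irrN hS hh h0 W (by
    intro κ hκ x hx v hv
    rcases hdeg κ hκ x hx with h3 | h3
    · exact hst1 x ⟨hx.1, h3⟩ v hv
    · have h4 : xᴴ ∈ D := by
        refine ⟨A.st _ hx.1, ?_⟩
        have h5 := congrArg conjTranspose h3
        rw [conjTranspose_mul, conjTranspose_mul, hPs, hQs, ← mul_assoc] at h5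
        exact h5
      have h5 := hst2 _ h4 v hv
      rwa [conjTranspose_conjTranspose] at h5) with h3 | h3
  · have h4 : f ∈ W := ⟨1, 0, D.zero_mem, by
      rw [one_smul, conjTranspose_zero, Matrix.zero_mulVec, add_zero]⟩
    rw [h3, Submodule.mem_bot] at h4
    have h5 := O.uu
    rw [h4, ip_zero_left] at h5
    exact zero_ne_one h5
  · have h4 : g ∈ W := by
      rw [h3]
      trivial
    obtain ⟨c, x, hx, hg⟩ := h4
    have h5 : P *ᵥ (xᴴ *ᵥ f) = 0 := by
      rw [hDs x hx, Matrix.mulVec_mulVec, ← mul_assoc, ← mul_assoc, hPQ, zero_mul, zero_mul, Matrix.zero_mulVec]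
    have h6 := congrArg (fun v => P *ᵥ v) hg
    simp only [Matrix.mulVec_add, Matrix.mulVec_smul, h5, hPf, hPg, add_zero] at h6
    have h7 := O.ww
    conv_lhs at h7 => rw [h6]
    rw [ip_smul_left] at h7
    have h8 : ip f (c • f) = 0 := by rw [← h6]; exact O.uw
    rw [h8, mul_zero] at h7
    exact zero_ne_one h7

end MH
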