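import Pool.Agent.Helper55.BL2.Rk4

/-!
Project BL (MP_b8862a_ag): a simple irreducible self-adjoint Lie algebra of matrices of size `n` at least five that
contains a Hermitian matrix with an eigenvalue of multiplicity `n - 2`, the case of three eigenvalues.
-/

set_option linter.unusedSectionVars false
set_option linter.unusedSimpArgs false

open Matrix Module GH

namespace MH

variable {n : Type*} [Fintype n] [DecidableEq n]
variable {L : Submodule ℂ (Matrix n n ℂ)} {h : Matrix n n ℂ} {E : ℝ → Matrix n n ℂ} {Λ : Finset ℝ}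

/-- the data: three eigenvalues, two of them simple -/
structure Th (E : ℝ → Matrix n n ℂ) (μ ν ν' : ℝ) (u w : n → ℂ) : Prop where
  on : On u w
  h1 : μ ≠ ν
  h2 : μ ≠ ν'
  h3 : ν ≠ ν'
  sum : E μ + ro u u + ro w w = 1
  eu : E ν = ro u u
  ew : E ν' = ro w w

theorem Th.symm {μ ν ν' : ℝ} {u w : n → ℂ} (T : Th E μ ν ν' u w) : Th E μ ν' ν w u :=
  ⟨⟨T.on.ww, T.on.uu, T.on.wu⟩, T.h2, T.h1, Ne.symm T.h3, by rw [← T.sum]; abel, T.ew, T.eu⟩

/-- the elements of nonzero degree, without nilpotent matrices of rank one -/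
theorem Th.deg {μ ν ν' : ℝ} {u w : n → ℂ} (T : Th E μ ν ν' u w) (A : SAl L) (hS : Spec h E Λ) (hh : h ∈ L)
    {κ : ℝ} (hκ : κ ≠ 0) {x : Matrix n n ℂ} (hx : x ∈ Ld L h κ) :
    ∃ (a b a' b' : n → ℂ) (c c' : ℂ), V0 u w a ∧ V0 u w b ∧ V0 u w a' ∧ V0 u w b' ∧
      x = (if κ = ν - μ then ro u a else 0) + (if κ = ν' - μ then ro w b else 0) +
        (if κ = μ - ν then ro a' u else 0) + (if κ = μ - ν' then ro b' w else 0) +
        (if κ = ν - ν' then c • ro u w else 0) + (if κ = ν' - ν then c' • ro w u else 0) := by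
  have G := A.gr hS hh
  have O := T.on
  have hmul := hS.mul
  have hQQ : E μ * E μ = E μ := by rw [hmul, if_pos rfl]
  have hQs : (E μ)ᴴ = E μ := hS.star μ
  have hQu : E μ *ᵥ u = 0 := by
    have h4 : E μ * ro u u = 0 := by rw [← T.eu, hmul, if_neg T.h1]
    have h5 := congrArg (fun M : Matrix n n ℂ => M *ᵥ u) h4
    simp only [Matrix.zero_mulVec] at h5
    rw [← Matrix.mulVec_mulVec, ro_mulVec, O.uu, one_smul] at h5
    exact h5
  have hQw : E μ *ᵥ w = 0 := by
    have h4 : E μ * ro w w = 0 := by rw [← T.ew, hmul, if_neg T.h2]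
    have h5 := congrArg (fun M : Matrix n n ℂ => M *ᵥ w) h4
    simp only [Matrix.zero_mulVec] at h5
    rw [← Matrix.mulVec_mulVec, ro_mulVec, O.ww, one_smul] at h5
    exact h5
  have hV : ∀ v, V0 u w (E μ *ᵥ v) := by
    intro v
    constructor
    · rw [ip_mulVec, hQs, hQu, ip_zero_left]
    · rw [ip_mulVec, hQs, hQw, ip_zero_left]
  have hE0 : ∀ ρ, ρ ≠ μ → ρ ≠ ν → ρ ≠ ν' → E ρ = 0 := by
    intro ρ h4 h5 h6
    calc E ρ = E ρ * (E μ + ro u u + ro w w) := by rw [T.sum, mul_one]
      _ = 0 := by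
        rw [← T.eu, ← T.ew, mul_add, mul_add, hmul, hmul, hmul, if_neg h4, if_neg h5, if_neg h6, add_zero, add_zero]
  -- the blocks
  have hb : ∀ ρ ρ' : ℝ, E ρ * x * E ρ' = if κ = ρ - ρ' then E ρ * x * E ρ' else 0 := by
    intro ρ ρ'
    by_cases h4 : κ = ρ - ρ'
    · rw [if_pos h4]
    · rw [if_neg h4, G.Ld_block hx (Ne.symm h4)]
  have hb0 : ∀ ρ : ℝ, E ρ * x * E ρ = 0 := fun ρ => G.Ld_block hx (by rw [sub_self]; exact Ne.symm hκ)
  refine ⟨E μ *ᵥ (xᴴ *ᵥ u), E μ *ᵥ (xᴴ *ᵥ w), E μ *ᵥ (x *ᵥ u), E μ *ᵥ (x *ᵥ w), ip u (x *ᵥ w), ip w (x *ᵥ u),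
    hV _, hV _, hV _, hV _, ?_⟩
  have b1 : E ν * x * E μ = ro u (E μ *ᵥ (xᴴ *ᵥ u)) := by
    rw [T.eu, mul_assoc, ro_mul', conjTranspose_mul, hQs, ← Matrix.mulVec_mulVec]
  have b2 : E ν' * x * E μ = ro w (E μ *ᵥ (xᴴ *ᵥ w)) := by
    rw [T.ew, mul_assoc, ro_mul', conjTranspose_mul, hQs, ← Matrix.mulVec_mulVec]
  have b3 : E μ * x * E ν = ro (E μ *ᵥ (x *ᵥ u)) u := by
    rw [T.eu, mul_assoc, mul_ro, mul_ro]
  have b4 : E μ * x * E ν' = ro (E μ *ᵥ (x *ᵥ w)) w := by
    rw [T.ew, mul_assoc, mul_ro, mul_ro]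
  have b5 : E ν * x * E ν' = ip u (x *ᵥ w) • ro u w := by
    rw [T.eu, T.ew, mul_assoc, mul_ro, ro_mul]
  have b6 : E ν' * x * E ν = ip w (x *ᵥ u) • ro w u := by
    rw [T.eu, T.ew, mul_assoc, mul_ro, ro_mul]
  rw [← b1, ← b2, ← b3, ← b4, ← b5, ← b6, ← hb, ← hb, ← hb, ← hb, ← hb, ← hb]
  have hs : E μ + E ν + E ν' = 1 := by rw [T.eu, T.ew, T.sum]
  calc x = (E μ + E ν + E ν') * x * (E μ + E ν + E ν') := by rw [hs, one_mul, mul_one]
    _ = E ν * x * E μ + E ν' * x * E μ + E μ * x * E ν + E μ * x * E ν' + E ν * x * E ν' + E ν' * x * E ν +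
        (E μ * x * E μ + E ν * x * E ν + E ν' * x * E ν') := by noncomm_ring
    _ = _ := by rw [hb0, hb0, hb0, add_zero, add_zero, add_zero]

/-- the case of the eigenvalues `2`, `1`, `0` up to an affine change -/
theorem Th.r4a {μ ν ν' : ℝ} {u w : n → ℂ} (T : Th E μ ν ν' u w) (A : SAl L) (hn : 5 ≤ Fintype.card n)
    (hS : Spec h E Λ) (hh : h ∈ L) (h0 : h ≠ 0) (h4 : ν - μ = 2 * (ν' - μ)) : SlF L := by
  have G := A.gr hS hh
  have O := T.on
  by_contra hcon
  have no1 : ∀ u w : n → ℂ, u ≠ 0 → ip u w = 0 → ro u w ∈ L → w = 0 := by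
    intro u w hu huw he
    by_contra hw
    exact hcon (A.r1' hn hu hw huw he)
  have hu0 : u ≠ 0 := by
    rintro rfl
    have h3 := O.uu
    rw [ip_zero_left] at h3
    exact zero_ne_one h3
  have hw0 : w ≠ 0 := by
    rintro rfl
    have h3 := O.ww
    rw [ip_zero_left] at h3
    exact zero_ne_one h3
  have d1 := sub_ne_zero.2 (Ne.symm T.h1)
  have d2 := sub_ne_zero.2 (Ne.symm T.h2)
  have d3 := sub_ne_zero.2 T.h3
  -- the elements of positive degree
  have hpos : ∀ κ : ℝ, κ ≠ 0 → ∀ x ∈ Ld L h κ, (∃ (b : n → ℂ) (c : ℂ), V0 u w b ∧ x = ro w b + c • ro u w) ∨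
      ∃ (b : n → ℂ) (c : ℂ), V0 u w b ∧ xᴴ = ro w b + c • ro u w := by
    intro κ hκ x hx
    obtain ⟨a, b, a', b', c, c', ha, hb, ha', hb', hxe⟩ := T.deg A hS hh hκ hx
    by_cases e1 : κ = ν' - μ
    · left
      refine ⟨b, c, hb, ?_⟩
      rw [if_neg (by intro h5; apply d2; linarith), if_pos e1, if_neg (by intro h5; apply d2; linarith),
        if_neg (by intro h5; apply d2; linarith), if_pos (by linarith), if_neg (by intro h5; apply d2; linarith)] at hxe
      rw [hxe]
      abel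
    by_cases e2 : κ = μ - ν'
    · right
      refine ⟨b', star c', hb', ?_⟩
      rw [if_neg (by intro h5; apply d2; linarith), if_neg e1, if_neg (by intro h5; apply d2; linarith), if_pos e2,
        if_neg (by intro h5; apply d2; linarith), if_pos (by linarith)] at hxe
      rw [hxe]
      simp only [zero_add, add_zero, conjTranspose_add, conjTranspose_smul, ro_star]
    by_cases e3 : κ = ν - μ
    · left
      refine ⟨0, 0, V0.zero, ?_⟩
      rw [if_pos e3, if_neg e1, if_neg (by intro h5; apply d1; linarith), if_neg e2,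
        if_neg (by intro h5; apply d2; linarith), if_neg (by intro h5; apply d2; linarith)] at hxe
      simp only [add_zero] at hxe
      have h5 := no1 u a hu0 ha.1 (by rw [← hxe]; exact hx.1)
      rw [hxe, h5, ro_zero_right, ro_zero_right, zero_smul, add_zero]
    by_cases e4 : κ = μ - ν
    · right
      refine ⟨0, 0, V0.zero, ?_⟩
      rw [if_neg e3, if_neg e1, if_pos e4, if_neg e2, if_neg (by intro h5; apply d2; linarith),
        if_neg (by intro h5; apply d2; linarith)] at hxe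
      simp only [add_zero, zero_add] at hxe
      have h5 := no1 u a' hu0 ha'.1 (by
        have h6 := A.st _ hx.1
        rwa [hxe, ro_star] at h6)
      rw [hxe, h5, ro_zero_left, ro_zero_right, zero_smul, add_zero, conjTranspose_zero]
    · left
      refine ⟨0, 0, V0.zero, ?_⟩
      rw [if_neg e3, if_neg e1, if_neg e4, if_neg e2, if_neg (by intro h5; apply e1; linarith),
        if_neg (by intro h5; apply e2; linarith)] at hxe
      rw [hxe, ro_zero_right, zero_smul]
      simp
  -- the vector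
  obtain ⟨v0, hv0⟩ : ∃ v0 : n → ℂ, ∀ (b : n → ℂ) (c : ℂ), V0 u w b → ro w b + c • ro u w ∈ L → ∃ t : ℂ, b = t • v0 := by
    by_cases hc : ∃ (b : n → ℂ) (c : ℂ), c ≠ 0 ∧ V0 u w b ∧ ro w b + c • ro u w ∈ L
    · obtain ⟨b0, c0, hc0, hb0, hL0⟩ := hc
      refine ⟨b0, fun b c hb hL => ?_⟩
      have h5 := L.sub_mem (L.smul_mem c0 hL) (L.smul_mem c hL0)
      have h6 : c0 • (ro w b + c • ro u w) - c • (ro w b0 + c0 • ro u w) =
          ro w (star c0 • b - star c • b0) := by
        rw [ro_sub_right, ro_smul_right, ro_smul_right, star_star, star_star]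
        module
      rw [h6] at h5
      have h7 := no1 w _ hw0 ((hb.smul _).sub (hb0.smul _)).2 h5
      have h8 : star c0 ≠ 0 := by
        intro h9
        apply hc0
        rw [← star_star c0, h9, star_zero]
      refine ⟨(star c0)⁻¹ * star c, ?_⟩
      rw [← smul_smul, ← sub_eq_zero.1 h7, smul_smul, inv_mul_cancel₀ h8, one_smul]
    · push Not at hc
      refine ⟨0, fun b c hb hL => ⟨0, ?_⟩⟩
      by_cases hc0 : c = 0
      · rw [hc0, zero_smul, add_zero] at hL
        rw [no1 w b hw0 hb.2 hL, smul_zero]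
      · exact absurd hL (hc b c hc0 hb)
  let W : Submodule ℂ (n → ℂ) := Submodule.span ℂ {u, w, v0}
  have hWu : u ∈ W := Submodule.subset_span (by simp)
  have hWw : w ∈ W := Submodule.subset_span (by simp)
  have hWv : v0 ∈ W := Submodule.subset_span (by simp)
  rcases A.irrN hS hh h0 W (by
    intro κ hκ x hx v hv
    rcases hpos κ hκ x hx with ⟨b, c, hb, hxe⟩ | ⟨b, c, hb, hxe⟩
    · rw [hxe, Matrix.add_mulVec, Matrix.smul_mulVec, ro_mulVec, ro_mulVec]
      exact W.add_mem (W.smul_mem _ hWw) (W.smul_mem _ (W.smul_mem _ hWu))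
    · obtain ⟨t, ht⟩ := hv0 b c hb (by rw [← hxe]; exact A.st _ hx.1)
      have h5 : x = ro b w + star c • ro w u := by
        have h6 := congrArg conjTranspose hxe
        rwa [conjTranspose_conjTranspose, conjTranspose_add, conjTranspose_smul, ro_star, ro_star] at h6
      rw [h5, Matrix.add_mulVec, Matrix.smul_mulVec, ro_mulVec, ro_mulVec, ht]
      exact W.add_mem (W.smul_mem _ (W.smul_mem _ hWv)) (W.smul_mem _ (W.smul_mem _ hWw))) with h5 | h5
  · rw [h5, Submodule.mem_bot] at hWu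
    exact hu0 hWu
  · obtain ⟨d, hd0, hd1, hd2, hd3, -⟩ := exists_four hn u w v0 0
    have h6 : d ∈ W := by
      rw [h5]
      trivial
    have h7 : ∀ v ∈ W, ip v d = 0 := by
      intro v hv
      induction hv using Submodule.span_induction with
      | mem v hv =>
        rcases hv with rfl | rfl | rfl
        · exact hd1
        · exact hd2
        · exact hd3
      | zero => exact ip_zero_left _
      | add a b _ _ ha hb => rw [ip_add_left, ha, hb, add_zero]
      | smul c a _ ha => rw [ip_smul_left, ha, mul_zero]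
    exact ip_self_ne hd0 (h7 d h6)

/-- **three eigenvalues** -/
theorem Th.r4 {μ ν ν' : ℝ} {u w : n → ℂ} (T : Th E μ ν ν' u w) (A : SAl L) (hn : 5 ≤ Fintype.card n)
    (hS : Spec h E Λ) (hh : h ∈ L) (h0 : h ≠ 0) : SlF L := by
  have G := A.gr hS hh
  have O := T.on
  by_cases c1 : ν - μ = 2 * (ν' - μ)
  · exact T.r4a A hn hS hh h0 c1
  by_cases c2 : ν' - μ = 2 * (ν - μ)
  · exact T.symm.r4a A hn hS hh h0 c2
  have d1 := sub_ne_zero.2 (Ne.symm T.h1)
  have d2 := sub_ne_zero.2 (Ne.symm T.h2)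
  have d3 := sub_ne_zero.2 T.h3
  have hu0 : u ≠ 0 := by
    rintro rfl
    have h3 := O.uu
    rw [ip_zero_left] at h3
    exact zero_ne_one h3
  have hw0 : w ≠ 0 := by
    rintro rfl
    have h3 := O.ww
    rw [ip_zero_left] at h3
    exact zero_ne_one h3
  have he : h = (μ : ℂ) • (1 : Matrix n n ℂ) + ((ν : ℂ) - μ) • ro u u + ((ν' : ℂ) - μ) • ro w w := by
    have hs : E μ + E ν + E ν' = 1 := by rw [T.eu, T.ew, T.sum]
    calc h = h * (E μ + E ν + E ν') := by rw [hs, mul_one]
      _ = (μ : ℂ) • E μ + (ν : ℂ) • E ν + (ν' : ℂ) • E ν' := by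
        rw [mul_add, mul_add, hS.h_mul, hS.h_mul, hS.h_mul]
      _ = (μ : ℂ) • (E μ + E ν + E ν') + ((ν : ℂ) - μ) • E ν + ((ν' : ℂ) - μ) • E ν' := by module
      _ = _ := by rw [hs, T.eu, T.ew]
  by_cases c3 : ν - μ = -(ν' - μ)
  · -- `h` is a multiple of `u u* - w w*`
    refine A.r2 hn O ?_
    have h5 : (ν' : ℂ) - μ = -((ν : ℂ) - μ) := by
      have h6 : ((ν - μ : ℝ) : ℂ) = ((-(ν' - μ) : ℝ) : ℂ) := by rw [c3]
      push_cast at h6
      linear_combination h6
    rw [h5] at he
    have h6 : (μ : ℂ) = 0 := by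
      have h7 := A.tr h hh
      rw [he, Matrix.trace_add, Matrix.trace_add, Matrix.trace_smul, Matrix.trace_smul, Matrix.trace_smul,
        Matrix.trace_one, ro_trace, ro_trace, O.uu, O.ww, smul_eq_mul, smul_eq_mul, smul_eq_mul] at h7
      have h8 : (μ : ℂ) * (Fintype.card n : ℂ) = 0 := by linear_combination h7
      refine (mul_eq_zero.1 h8).resolve_right ?_
      have : Fintype.card n ≠ 0 := by omega
      exact_mod_cast this
    have h7 : (ν : ℂ) - μ ≠ 0 := by exact_mod_cast d1
    have h8 := L.smul_mem ((ν : ℂ) - μ)⁻¹ hh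
    rw [he, h6] at h8
    convert h8 using 1
    rw [h6] at h7
    rw [zero_smul, zero_add, neg_smul, ← sub_eq_add_neg, ← smul_sub, smul_smul, inv_mul_cancel₀ h7, one_smul]
  · by_contra hcon
    have no1 : ∀ u w : n → ℂ, u ≠ 0 → ip u w = 0 → ro u w ∈ L → w = 0 := by
      intro u w hu huw he
      by_contra hw
      exact hcon (A.r1' hn hu hw huw he)
    have no2 : ∀ (u w : n → ℂ) (c : ℂ), u ≠ 0 → w ≠ 0 → ip u w = 0 → c • ro u w ∈ L → c = 0 := by
      intro u w c hu hw huw he
      by_contra hc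
      apply hw
      refine no1 u w hu huw ?_
      have h5 := L.smul_mem c⁻¹ he
      rwa [smul_smul, inv_mul_cancel₀ hc, one_smul] at h5
    have hz : ∀ κ : ℝ, κ ≠ 0 → ∀ x ∈ Ld L h κ, x = 0 := by
      intro κ hκ x hx
      obtain ⟨a, b, a', b', c, c', ha, hb, ha', hb', hxe⟩ := T.deg A hS hh hκ hx
      have hxL := hx.1
      have hxS := A.st _ hxL
      by_cases e1 : κ = ν - μ
      · rw [if_pos e1, if_neg (by intro h5; apply d3; linarith), if_neg (by intro h5; apply d1; linarith),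
          if_neg (by intro h5; apply c3; linarith), if_neg (by intro h5; apply d2; linarith),
          if_neg (by intro h5; apply c2; linarith)] at hxe
        simp only [add_zero, zero_add] at hxe
        rw [hxe] at hxL
        rw [hxe, no1 u a hu0 ha.1 hxL, ro_zero_right]
      by_cases e2 : κ = ν' - μ
      · rw [if_neg e1, if_pos e2, if_neg (by intro h5; apply c3; linarith), if_neg (by intro h5; apply d2; linarith),
          if_neg (by intro h5; apply c1; linarith), if_neg (by intro h5; apply d1; linarith)] at hxe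
        simp only [add_zero, zero_add] at hxe
        rw [hxe] at hxL
        rw [hxe, no1 w b hw0 hb.2 hxL, ro_zero_right]
      by_cases e3 : κ = μ - ν
      · rw [if_neg e1, if_neg e2, if_pos e3, if_neg (by intro h5; apply d3; linarith),
          if_neg (by intro h5; apply c2; linarith), if_neg (by intro h5; apply d2; linarith)] at hxe
        simp only [add_zero, zero_add] at hxe
        rw [hxe, ro_star] at hxS
        rw [hxe, no1 u a' hu0 ha'.1 hxS, ro_zero_left]
      by_cases e4 : κ = μ - ν'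
      · rw [if_neg e1, if_neg e2, if_neg e3, if_pos e4, if_neg (by intro h5; apply d1; linarith),
          if_neg (by intro h5; apply c1; linarith)] at hxe
        simp only [add_zero, zero_add] at hxe
        rw [hxe, ro_star] at hxS
        rw [hxe, no1 w b' hw0 hb'.2 hxS, ro_zero_left]
      by_cases e5 : κ = ν - ν'
      · rw [if_neg e1, if_neg e2, if_neg e3, if_neg e4, if_pos e5, if_neg (by intro h5; apply d3; linarith)] at hxe
        simp only [add_zero, zero_add] at hxe
        rw [hxe] at hxL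
        rw [hxe, no2 u w c hu0 hw0 O.uw hxL, zero_smul]
      by_cases e6 : κ = ν' - ν
      · rw [if_neg e1, if_neg e2, if_neg e3, if_neg e4, if_neg e5, if_pos e6] at hxe
        simp only [add_zero, zero_add] at hxe
        rw [hxe] at hxL
        rw [hxe, no2 w u c' hw0 hu0 O.wu hxL, zero_smul]
      · rw [if_neg e1, if_neg e2, if_neg e3, if_neg e4, if_neg e5, if_neg e6] at hxe
        simpa using hxe
    rcases A.irrN hS hh h0 (Submodule.span ℂ {u}) (by
      intro κ hκ x hx v _
      rw [hz κ hκ x hx, Matrix.zero_mulVec]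
      exact Submodule.zero_mem _) with h5 | h5
    · have h6 : u ∈ Submodule.span ℂ {u} := Submodule.mem_span_singleton_self u
      rw [h5, Submodule.mem_bot] at h6
      exact hu0 h6
    · have h6 : w ∈ Submodule.span ℂ {u} := by
        rw [h5]
        trivial
      obtain ⟨c, hc⟩ := Submodule.mem_span_singleton.1 h6
      have h7 := O.uw
      rw [← hc, ip_smul_right, O.uu, mul_one] at h7
      rw [h7, zero_smul] at hc
      exact hw0 hc.symm

end MH
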